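import Pool.Agent.Helper72.LGA.Defs
import Pool.Agent.Helper72.LGS.Count

/-!
# Counting the values of groups with data
-/

set_option autoImplicit false

namespace Pool.Agent.Helper72.LGA

open Subgroup Finset Pool.Agent.Helper72.LG Pool.Agent.Helper72.LGS

/-- the transported data -/
def mapD {H H' : Type*} [Group H] [Group H'] {h : ℕ} (φ : H ≃* H') (d : Dat H h) : Dat H' h :=
  (d.1.map φ.toMonoidHom, d.2.1.map φ.toMonoidHom,
    fun i => (d.2.2.1 i).map (φ.toMonoidHom.prodMap φ.toMonoidHom), d.2.2.2)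

lemma ok_mapD {H H' : Type*} [Group H] [Group H'] {h : ℕ} (φ : H ≃* H') (M : Subgroup H)
    (d : Dat H h) : ok (M.map φ.toMonoidHom) (mapD φ d) ↔ ok M d := by
  have hinj : Function.Injective φ.toMonoidHom := φ.injective
  have hmem : ∀ x : H, φ.toMonoidHom x ∈ M.map φ.toMonoidHom ↔ x ∈ M := fun x => by
    rw [Subgroup.mem_map]
    exact ⟨fun ⟨y, hy, hyx⟩ => by rwa [← hinj hyx], fun hx => ⟨x, hx, rfl⟩⟩
  unfold ok mapD
  refine or_congr (Subgroup.map_le_map_iff_of_injective hinj) (and_congr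
    (Subgroup.map_le_map_iff_of_injective hinj) (forall_congr' fun i => ?_))
  constructor
  · intro hx x hxm hx1
    have h1 := hx (φ.toMonoidHom.prodMap φ.toMonoidHom x) (Subgroup.mem_map_of_mem _ hxm)
      ((hmem x.1).2 hx1)
    exact (hmem x.2).1 h1
  · rintro hx _ ⟨y, hy, rfl⟩ h1
    exact (hmem y.2).2 (hx y hy ((hmem y.1).1 h1))

lemma wgt_mapD {H H' : Type*} [Group H] [Group H'] {h : ℕ} (φ : H ≃* H') (M : Subgroup H)
    (d : Dat H h) : wgt (M.map φ.toMonoidHom) (mapD φ d) = wgt M d := by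
  have hinj : Function.Injective φ.toMonoidHom := φ.injective
  have h1 : d.1.map φ.toMonoidHom ≤ M.map φ.toMonoidHom ↔ d.1 ≤ M :=
    Subgroup.map_le_map_iff_of_injective hinj
  unfold wgt mapD
  by_cases h2 : d.1 ≤ M
  · rw [if_pos h2, if_pos (h1.2 h2)]
  · rw [if_neg h2, if_neg (fun h3 => h2 (h1.1 h3))]

theorem VA_map {H H' : Type*} [Group H] [Finite H] [Group H'] [Finite H'] (φ : H ≃* H')
    (S : Finset ℕ) {h : ℕ} (d : Fin h → Dat H h) (K : ℕ → Subgroup H) (L : Subgroup H) :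
    VA H S d K L = VA H' S (fun j => mapD φ (d j)) (fun p => (K p).map φ.toMonoidHom)
      (L.map φ.toMonoidHom) := by
  classical
  unfold VA
  have hinj : Function.Injective φ.toMonoidHom := φ.injective
  have hsurj : Function.Surjective φ.toMonoidHom := φ.surjective
  refine Finset.sum_bij (fun M _ => M.map φ.toMonoidHom) ?_ ?_ ?_ ?_
  · intro M hM
    rw [mem_filter, mem_nsg] at hM ⊢
    exact ⟨hM.1.map _ hsurj, Subgroup.map_mono hM.2.1, fun j => (ok_mapD φ M (d j)).2 (hM.2.2 j)⟩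
  · intro M _ M' _ heq
    exact Subgroup.map_injective hinj heq
  · intro J hJ
    rw [mem_filter, mem_nsg] at hJ
    have hJm : (J.comap φ.toMonoidHom).map φ.toMonoidHom = J :=
      Subgroup.map_comap_eq_self_of_surjective hsurj J
    refine ⟨J.comap φ.toMonoidHom, ?_, hJm⟩
    rw [mem_filter, mem_nsg]
    refine ⟨hJ.1.comap _, ?_, fun j => ?_⟩
    · rw [← Subgroup.map_le_map_iff_of_injective hinj, hJm]
      exact hJ.2.1
    · rw [← ok_mapD φ, hJm]
      exact hJ.2.2 j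
  · intro M _
    have h1 : Nat.card (M.map φ.toMonoidHom) = Nat.card M :=
      Nat.card_congr (M.equivMapOfInjective φ.toMonoidHom hinj).toEquiv.symm
    rw [h1]
    congr 1
    · congr 1
      exact prod_congr rfl fun j _ => (wgt_mapD φ M (d j)).symm
    · refine prod_congr rfl fun p _ => ?_
      simp only [Subgroup.map_le_map_iff_of_injective hinj]

lemma VA_restrict {H : Type*} [Group H] [Finite H] (S : Finset ℕ) {h : ℕ} (d : Fin h → Dat H h)
    (K K' : ℕ → Subgroup H) (L : Subgroup H) (hK : ∀ p ∈ S, K p = K' p) :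
    VA H S d K L = VA H S d K' L := by
  classical
  unfold VA
  refine sum_congr rfl fun M _ => ?_
  congr 1
  exact prod_congr rfl fun p hp => by rw [hK p hp]

/-- the finite version of the data: the weight is at most `Kb` -/
abbrev FDat (H : Type) [Group H] (h Kb : ℕ) : Type :=
  Subgroup H × Subgroup H × (Fin h → Subgroup (H × H)) × Fin (Kb + 1)

theorem VSA_bound {M Kb TB : ℕ} (h : ℕ) (hT : Types M Kb TB) (S : Finset ℕ) :
    ∃ A : Finset ℕ, A.card ≤ TB * ((Kb ^ Nat.log 2 Kb * (Kb ^ Nat.log 2 Kb *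
      (((Kb * Kb) ^ Nat.log 2 (Kb * Kb)) ^ h * (Kb + 1)))) ^ h *
        (Kb ^ Nat.log 2 Kb) ^ (S.card + 1)) ∧ VSA M Kb h S ⊆ A := by
  classical
  obtain ⟨T, hTfin, code, hTB, hcode⟩ := hT
  have hc : ∀ c : T, ∃ A : Finset ℕ, A.card ≤ (Kb ^ Nat.log 2 Kb * (Kb ^ Nat.log 2 Kb *
      (((Kb * Kb) ^ Nat.log 2 (Kb * Kb)) ^ h * (Kb + 1)))) ^ h *
        (Kb ^ Nat.log 2 Kb) ^ (S.card + 1) ∧
      ∀ (Q : Type) (iQ : Group Q) (_ : Finite Q) (d : Fin h → Dat Q h)
        (K : ℕ → Subgroup Q) (L : Subgroup Q),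
        Nat.card Q ≤ Kb → Ser M Q → (∀ j, (d j).2.2.2 ≤ Kb) → code Q iQ = c →
          VA Q S d K L ∈ A := by
    intro c
    by_cases hex : ∃ (X : Type) (iX : Group X), Finite X ∧ Nat.card X ≤ Kb ∧ Ser M X ∧ code X iX = c
    · obtain ⟨X₀, iX₀, hf₀, hk₀, hs₀, hc₀⟩ := hex
      let D := (Fin h → FDat X₀ h Kb) × ((S → Subgroup X₀) × Subgroup X₀)
      have hDf : Finite D := inferInstance
      have hFt : Fintype D := Fintype.ofFinite _
      refine ⟨univ.image (fun f : D =>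
        VA X₀ S (fun j => ((f.1 j).1, (f.1 j).2.1, (f.1 j).2.2.1, (f.1 j).2.2.2.val))
          (fun p => if h : p ∈ S then f.2.1 ⟨p, h⟩ else ⊥) f.2.2), ?_, ?_⟩
      · refine card_image_le.trans ?_
        rw [card_univ, ← Nat.card_eq_fintype_card]
        have e1 : Nat.card D = (Nat.card (Subgroup X₀) * (Nat.card (Subgroup X₀) *
            (Nat.card (Subgroup (X₀ × X₀)) ^ h * (Kb + 1)))) ^ h *
            (Nat.card (Subgroup X₀) ^ S.card * Nat.card (Subgroup X₀)) := by
          simp only [D, FDat, Nat.card_prod, Nat.card_fun, Nat.card_eq_fintype_card (α := Fin h),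
            Nat.card_eq_fintype_card (α := Fin (Kb + 1)), Nat.card_eq_fintype_card (α := S),
            Fintype.card_fin, Fintype.card_coe]
        rw [e1, pow_succ (Kb ^ Nat.log 2 Kb)]
        have h1 := card_sub_le hk₀
        have h2 : Nat.card (Subgroup (X₀ × X₀)) ≤ (Kb * Kb) ^ Nat.log 2 (Kb * Kb) :=
          card_sub_le (by rw [Nat.card_prod]; exact Nat.mul_le_mul hk₀ hk₀)
        gcongr
      · intro Q iQ hf d K L hk hs hd hcQ
        obtain ⟨φ⟩ := hcode Q X₀ iQ iX₀ hf hf₀ hk hk₀ hs hs₀ (hcQ.trans hc₀.symm)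
        rw [mem_image]
        refine ⟨((fun j => ((mapD φ (d j)).1, (mapD φ (d j)).2.1, (mapD φ (d j)).2.2.1,
          ⟨(d j).2.2.2, by have := hd j; omega⟩)),
          (fun p => (K p).map φ.toMonoidHom, L.map φ.toMonoidHom)), mem_univ _, ?_⟩
        rw [VA_map φ S d K L]
        refine VA_restrict S _ _ _ _ fun p hp => ?_
        simp only [dif_pos hp]
    · refine ⟨∅, Nat.zero_le _, fun Q iQ hf d K L hk hs hd hcQ => ?_⟩
      exact absurd ⟨Q, iQ, hf, hk, hs, hcQ⟩ hex
  choose A hA1 hA2 using hc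
  have hFt : Fintype T := Fintype.ofFinite T
  refine ⟨univ.biUnion A, ?_, ?_⟩
  · refine card_biUnion_le.trans ?_
    refine (sum_le_sum fun c _ => hA1 c).trans ?_
    rw [sum_const, card_univ, smul_eq_mul, ← Nat.card_eq_fintype_card]
    exact Nat.mul_le_mul_right _ hTB
  · rintro v ⟨Q, iQ, hf, d, K, L, hk, hs, hd, rfl⟩
    rw [mem_coe, mem_biUnion]
    exact ⟨code Q iQ, mem_univ _, hA2 _ Q iQ hf d K L hk hs hd rfl⟩

end Pool.Agent.Helper72.LGA
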