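import Pool.Agent.Helper72.LGS.Count

/-!
# Splittings of the lattice of normal subgroups and the value of a group with data: definitions
-/

set_option autoImplicit false

namespace Pool.Agent.Helper72.LGA

open Subgroup Finset Pool.Agent.Helper72.LG Pool.Agent.Helper72.LGS

/-- the iterated commutator subgroups -/
def der {G : Type*} [Group G] (A : Subgroup G) : ℕ → Subgroup G
  | 0 => A
  | k + 1 => ⁅der A k, der A k⁆

/-- every normal subgroup contains `L` or is contained in `Z`, and `L` is not abelian modulo `Z` -/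
structure Spl {G : Type*} [Group G] (L Z : Subgroup G) : Prop where
  normal_left : L.Normal
  normal_right : Z.Normal
  dich : ∀ N : Subgroup G, N.Normal → L ≤ N ∨ N ≤ Z
  nonab : ¬ ⁅L, L⁆ ≤ Z

/-- a supplement of `L` containing `Z` -/
structure Supp {G : Type*} [Group G] (L Z S : Subgroup G) : Prop where
  spl : Spl L Z
  le : Z ≤ S
  sup : S ⊔ L = ⊤
  not_le : ¬ S ⊓ L ≤ Z
  sol : ∃ k, der (S ⊓ L) k ≤ Z

/-- the data at one splitting: two subgroups, operators and a weight -/
abbrev Dat (H : Type*) [Group H] (h : ℕ) : Type _ :=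
  Subgroup H × Subgroup H × (Fin h → Subgroup (H × H)) × ℕ

/-- `M` is compatible with the data -/
def ok {H : Type*} [Group H] {h : ℕ} (M : Subgroup H) (d : Dat H h) : Prop :=
  d.1 ≤ M ∨ (M ≤ d.2.1 ∧ ∀ i, ∀ x ∈ d.2.2.1 i, x.1 ∈ M → x.2 ∈ M)

open scoped Classical in
/-- the weight of the data at `M` -/
noncomputable def wgt {H : Type*} [Group H] {h : ℕ} (M : Subgroup H) (d : Dat H h) : ℕ :=
  if d.1 ≤ M then d.2.2.2 else 1

open scoped Classical in
/-- the value of a group with data -/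
noncomputable def VA (H : Type*) [Group H] [Finite H] (S : Finset ℕ) {h : ℕ} (d : Fin h → Dat H h)
    (K : ℕ → Subgroup H) (L : Subgroup H) : ℕ :=
  ∑ M ∈ (nsg H).filter (fun M => M ≤ L ∧ ∀ j, ok M (d j)),
    Nat.card M * (∏ j, wgt M (d j)) * ∏ p ∈ S, (p + if M ≤ K p then 1 else 0)

/-- the possible values -/
def VSA (M Kb h : ℕ) (S : Finset ℕ) : Set ℕ :=
  {v | ∃ (H : Type) (_ : Group H) (_ : Finite H) (d : Fin h → Dat H h) (K : ℕ → Subgroup H)
    (L : Subgroup H), Nat.card H ≤ Kb ∧ Ser M H ∧ (∀ j, (d j).2.2.2 ≤ Kb) ∧ v = VA H S d K L}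

end Pool.Agent.Helper72.LGA
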