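import Pool.Agent.Helper72.LGA.Struct

/-!
# The image of the lattice of normal subgroups
-/

set_option autoImplicit false

namespace Pool.Agent.Helper72.LGA

open Subgroup Finset Pool.Agent.Helper72.LG Pool.Agent.Helper72.LGS Pool.Agent.Helper72.LGI
open scoped commutatorElement

section

variable {G : Type*} [Group G]

/-- the graph of the conjugation by `g` on the intersection of `Z` and `H` -/
def gam (H Z : Subgroup G) (g : G) : Subgroup (H × H) where
  carrier := {x | (x.1 : G) ∈ Z ∧ (x.2 : G) = g * x.1 * g⁻¹}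
  mul_mem' := by
    rintro ⟨a, b⟩ ⟨c, d⟩ ⟨h1, h2⟩ ⟨h3, h4⟩
    refine ⟨Z.mul_mem h1 h3, ?_⟩
    show ((b * d : H) : G) = g * ((a * c : H) : G) * g⁻¹
    rw [Subgroup.coe_mul, Subgroup.coe_mul]
    change (b : G) = g * a * g⁻¹ at h2
    change (d : G) = g * c * g⁻¹ at h4
    rw [h2, h4]
    group
  one_mem' := ⟨Z.one_mem, by simp⟩
  inv_mem' := by
    rintro ⟨a, b⟩ ⟨h1, h2⟩
    refine ⟨Z.inv_mem h1, ?_⟩
    show ((b⁻¹ : H) : G) = g * ((a⁻¹ : H) : G) * g⁻¹
    rw [Subgroup.coe_inv, Subgroup.coe_inv]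
    change (b : G) = g * a * g⁻¹ at h2
    rw [h2]
    group

lemma mem_gam {H Z : Subgroup G} {g : G} {x : H × H} :
    x ∈ gam H Z g ↔ (x.1 : G) ∈ Z ∧ (x.2 : G) = g * x.1 * g⁻¹ := Iff.rfl

/-- the data at a member -/
noncomputable def datL {h : ℕ} (H L Z S : Subgroup G) (g : Fin h → G) : Dat H h :=
  (L.subgroupOf H, Z.subgroupOf H, fun i => gam H Z (g i), S.index)

lemma ok_of_normal {h : ℕ} {H L Z S N : Subgroup G} (hS : Supp L Z S) (g : Fin h → G)
    (hN : N.Normal) : ok (N.subgroupOf H) (datL H L Z S g) := by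
  rcases hS.spl.dich N hN with h1 | h1
  · left
    exact fun x hx => h1 hx
  · right
    refine ⟨fun x hx => h1 hx, fun i x hx hx1 => ?_⟩
    rw [Subgroup.mem_subgroupOf] at hx1 ⊢
    change x ∈ gam H Z (g i) at hx
    rw [mem_gam] at hx
    rw [hx.2]
    exact hN.conj_mem _ hx1 _

lemma subgroupOf_le_iff {H A B : Subgroup G} : A.subgroupOf H ≤ B.subgroupOf H ↔ A ⊓ H ≤ B ⊓ H := by
  constructor
  · rintro h x ⟨h1, h2⟩
    exact ⟨h (show (⟨x, h2⟩ : H) ∈ A.subgroupOf H from h1), h2⟩
  · intro h x hx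
    exact (h ⟨hx, x.2⟩).1

open scoped Classical in
/-- every compatible normal subgroup is an intersection -/
theorem surj [Finite G] {Z S : Subgroup G → Subgroup G} (F : Finset (Subgroup G))
    (hF : ∀ L ∈ F, Supp L (Z L) (S L)) {h : ℕ} (g : Subgroup G → Fin h → G)
    (hg : ∀ L ∈ F, closure (Set.range (g L)) = L ⊓ (F.erase L).inf S)
    {H : Subgroup G} (hH : H = F.inf S) {M : Subgroup H} (hM : M.Normal)
    (hok : ∀ L ∈ F, ok M (datL H L (Z L) (S L) (g L))) :
    ∃ N : Subgroup G, N.Normal ∧ N.subgroupOf H = M := by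
  set T := F.filter (fun L => L.subgroupOf H ≤ M) with hT
  have hTn : ∀ L ∈ T, L.Normal := fun L hL => (hF L (mem_filter.1 hL).1).spl.normal_left
  obtain ⟨hTs, hTi⟩ := sup_inf_finset F hF T hTn
  rw [← hH] at hTi
  set E : Subgroup G := T.sup id with hE
  set M' : Subgroup G := M.map H.subtype with hM'
  have hM'H : M' ≤ H := by
    rintro _ ⟨x, _, rfl⟩
    exact x.2
  have hmem : ∀ x : H, (x : G) ∈ M' ↔ x ∈ M := by
    intro x
    constructor
    · rintro ⟨y, hy, hyx⟩
      have : y = x := Subtype.ext hyx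
      exact this ▸ hy
    · exact fun hx => ⟨x, hx, rfl⟩
  set N : Subgroup G := M' ⊔ E with hN
  have hEM : E ⊓ H ≤ M' := by
    rw [hTi]
    refine Finset.sup_le fun L hL => ?_
    rintro x ⟨h1, h2⟩
    exact (hmem ⟨x, h2⟩).2 ((mem_filter.1 hL).2 h1)
  -- normalizing elements
  have hnorm : ∀ y : G, (∀ x ∈ M', y * x * y⁻¹ ∈ M') → y ∈ normalizer (N : Set G) := by
    intro y hy
    have h1 : N.map (MulAut.conj y).toMonoidHom ≤ N := by
      rw [hN, Subgroup.map_sup]
      refine sup_le ?_ ?_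
      · refine le_trans ?_ le_sup_left
        rintro _ ⟨x, hx, rfl⟩
        exact hy x hx
      · refine le_trans ?_ le_sup_right
        rintro _ ⟨x, hx, rfl⟩
        exact hTs.conj_mem x hx y
    have h2 : N.map (MulAut.conj y).toMonoidHom = N := by
      refine Subgroup.eq_of_le_of_card_ge h1 ?_
      have h3 : Nat.card (N.map (MulAut.conj y).toMonoidHom) = Nat.card N :=
        Nat.card_congr (N.equivMapOfInjective _ (MulAut.conj y).injective).toEquiv.symm
      rw [h3]
    rw [Subgroup.mem_normalizer_iff]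
    intro x
    constructor
    · intro hx
      exact h1 ⟨x, hx, rfl⟩
    · intro hx
      have hx' : y * x * y⁻¹ ∈ N.map (MulAut.conj y).toMonoidHom := by rw [h2]; exact hx
      obtain ⟨z, hz, hzx⟩ := hx'
      have h4 : z = x := by
        have : y * z * y⁻¹ = y * x * y⁻¹ := hzx
        simpa using this
      exact h4 ▸ hz
  have htop : normalizer (N : Set G) = ⊤ := by
    refine generation F hF ?_ ?_
    · intro y hy
      refine hnorm y fun x hx => ?_
      have hyH : y ∈ H := by rw [hH]; exact hy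
      have h1 := hM.conj_mem ⟨x, hM'H hx⟩ ((hmem _).1 hx) ⟨y, hyH⟩
      exact (hmem _).2 h1
    · intro L hL
      by_cases hLT : L ∈ T
      · refine inf_le_left.trans ?_
        refine le_trans ?_ (Subgroup.le_normalizer (H := N))
        exact (Finset.le_sup (f := id) hLT).trans le_sup_right
      · rw [← hg L hL, Subgroup.closure_le]
        rintro _ ⟨i, rfl⟩
        refine hnorm _ fun x hx => ?_
        have hgi : g L i ∈ L ⊓ (F.erase L).inf S := by
          rw [← hg L hL]
          exact Subgroup.subset_closure ⟨i, rfl⟩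
        rcases hok L hL with h1 | ⟨h1, h2⟩
        · exact absurd (mem_filter.2 ⟨hL, h1⟩) hLT
        · have hxH := hM'H hx
          have hxZ : x ∈ Z L := h1 ((hmem ⟨x, hxH⟩).1 hx)
          have hZn := (hF L hL).spl.normal_right
          have hyZ : g L i * x * (g L i)⁻¹ ∈ Z L := hZn.conj_mem x hxZ _
          have hyH : g L i * x * (g L i)⁻¹ ∈ H := by
            have e1 : F.inf S = S L ⊓ (F.erase L).inf S := by
              conv_lhs => rw [← Finset.insert_erase hL, Finset.inf_insert]
            rw [hH, e1]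
            refine ⟨(hF L hL).le hyZ, ?_⟩
            have hxR : x ∈ (F.erase L).inf S := by
              have := hxH
              rw [hH, e1] at this
              exact this.2
            exact Subgroup.mul_mem _ (Subgroup.mul_mem _ hgi.2 hxR) (Subgroup.inv_mem _ hgi.2)
          have h3 := h2 i (⟨x, hxH⟩, ⟨_, hyH⟩) (mem_gam.2 ⟨hxZ, rfl⟩) ((hmem ⟨x, hxH⟩).1 hx)
          exact (hmem ⟨_, hyH⟩).2 h3
  have hNn : N.Normal := Subgroup.normalizer_eq_top_iff.1 htop
  refine ⟨N, hNn, ?_⟩
  ext x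
  rw [Subgroup.mem_subgroupOf]
  constructor
  · intro hx
    rw [hN, sup_comm] at hx
    obtain ⟨t, ht, m, hm, htm⟩ := Subgroup.mem_sup_of_normal_left.1 hx
    have htH : t ∈ H := by
      have : t = x * m⁻¹ := by rw [← htm]; group
      rw [this]
      exact H.mul_mem x.2 (H.inv_mem (hM'H hm))
    rw [← hmem, ← htm]
    exact M'.mul_mem (hEM ⟨ht, htH⟩) hm
  · intro hx
    exact Subgroup.mem_sup_left ((hmem x).2 hx)

end

end Pool.Agent.Helper72.LGA
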