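import Pool.Agent.Helper72.LGA.Typ
import Pool.Agent.Helper72.LGS.Main
import Pool.Agent.Helper83.LGS.Code

/-!
# The exceptional set, all groups
-/

set_option autoImplicit false

namespace Pool.Agent.Helper72.LGA

open Subgroup Finset Pool.Agent.Helper72.LG Pool.Agent.Helper72.LGS

lemma types_KB (s : ℕ) (hs : 1 ≤ s) : Types s (KB s) (TBf s) :=
  exists_types s (KB s) hs Nat.one_le_two_pow

lemma NA_KB {s : ℕ} (hs : 197 ≤ s) :
    NA (TBf s) (KB s) (Nat.log 2 (KB s)) (2 * s) * 2 ^ s * 2 ^ s ≤ 2 ^ (s ^ 10) := by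
  have hs1 : 1 ≤ s := by omega
  have hss : s ≤ s ^ 2 := by nlinarith
  have e1 : TBf s ≤ 2 ^ (32768 * s ^ 8) := TBf_le hs1
  have e2 : (KB s ^ Nat.log 2 (KB s)) ^ (2 * s + 1) ≤ 2 ^ (108 * s ^ 5) := KBpow_le hs1
  have b1 : 2 * s + 4 * s ^ 2 ≤ 6 * s ^ 2 := by nlinarith
  have a0 : s ^ 2 ≤ s ^ 6 := Nat.pow_le_pow_right hs1 (by norm_num)
  have a0' : s ^ 4 ≤ s ^ 6 := Nat.pow_le_pow_right hs1 (by norm_num)
  have hP : KB s ^ Nat.log 2 (KB s) ≤ 2 ^ (36 * s ^ 4) := by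
    rw [log_KB]
    unfold KB
    rw [← pow_mul]
    refine Nat.pow_le_pow_right (by norm_num) ?_
    calc (2 * s + 4 * s ^ 2) * (2 * s + 4 * s ^ 2) ≤ (6 * s ^ 2) * (6 * s ^ 2) := Nat.mul_le_mul b1 b1
      _ = 36 * s ^ 4 := by ring
  have e4 : KB s + 1 ≤ 2 ^ (7 * s ^ 2) := by
    unfold KB
    have h1 : 2 ^ (2 * s + 4 * s ^ 2) + 1 ≤ 2 ^ (2 * s + 4 * s ^ 2 + 1) := by
      generalize 2 * s + 4 * s ^ 2 = a
      have h2 := Nat.one_le_two_pow (n := a)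
      have h3 : 2 ^ (a + 1) = 2 ^ a + 2 ^ a := by ring
      omega
    refine h1.trans (Nat.pow_le_pow_right (by norm_num) ?_)
    have : 1 ≤ s ^ 2 := Nat.one_le_pow _ _ hs1
    omega
  have e5 : ((KB s * KB s) ^ Nat.log 2 (KB s * KB s)) ^ Nat.log 2 (KB s) ≤ 2 ^ (864 * s ^ 6) := by
    have h0 : KB s * KB s = 2 ^ (2 * (2 * s + 4 * s ^ 2)) := by
      unfold KB
      rw [← pow_add]
      congr 1
      ring
    have h1 : Nat.log 2 (KB s * KB s) = 2 * (2 * s + 4 * s ^ 2) := by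
      rw [h0, Nat.log_pow (by norm_num)]
    rw [h1, h0, log_KB, ← pow_mul, ← pow_mul]
    refine Nat.pow_le_pow_right (by norm_num) ?_
    calc 2 * (2 * s + 4 * s ^ 2) * (2 * (2 * s + 4 * s ^ 2) * (2 * s + 4 * s ^ 2)) ≤
        2 * (6 * s ^ 2) * (2 * (6 * s ^ 2) * (6 * s ^ 2)) :=
          Nat.mul_le_mul (Nat.mul_le_mul_left _ b1) (Nat.mul_le_mul (Nat.mul_le_mul_left _ b1) b1)
      _ = 864 * s ^ 6 := by ring
  have e6 : (KB s ^ Nat.log 2 (KB s) * (KB s ^ Nat.log 2 (KB s) *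
      (((KB s * KB s) ^ Nat.log 2 (KB s * KB s)) ^ Nat.log 2 (KB s) * (KB s + 1)))) ^
        Nat.log 2 (KB s) ≤ 2 ^ (5658 * s ^ 8) := by
    have h1 : KB s ^ Nat.log 2 (KB s) * (KB s ^ Nat.log 2 (KB s) *
      (((KB s * KB s) ^ Nat.log 2 (KB s * KB s)) ^ Nat.log 2 (KB s) * (KB s + 1))) ≤
        2 ^ (943 * s ^ 6) := by
      calc KB s ^ Nat.log 2 (KB s) * (KB s ^ Nat.log 2 (KB s) *
          (((KB s * KB s) ^ Nat.log 2 (KB s * KB s)) ^ Nat.log 2 (KB s) * (KB s + 1))) ≤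
          2 ^ (36 * s ^ 4) * (2 ^ (36 * s ^ 4) * (2 ^ (864 * s ^ 6) * 2 ^ (7 * s ^ 2))) :=
            Nat.mul_le_mul hP (Nat.mul_le_mul hP (Nat.mul_le_mul e5 e4))
        _ = 2 ^ (36 * s ^ 4 + (36 * s ^ 4 + (864 * s ^ 6 + 7 * s ^ 2))) := by
            rw [← pow_add, ← pow_add, ← pow_add]
        _ ≤ 2 ^ (943 * s ^ 6) := Nat.pow_le_pow_right (by norm_num) (by omega)
    calc (KB s ^ Nat.log 2 (KB s) * (KB s ^ Nat.log 2 (KB s) *
      (((KB s * KB s) ^ Nat.log 2 (KB s * KB s)) ^ Nat.log 2 (KB s) * (KB s + 1)))) ^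
        Nat.log 2 (KB s) ≤ (2 ^ (943 * s ^ 6)) ^ Nat.log 2 (KB s) := Nat.pow_le_pow_left h1 _
      _ ≤ (2 ^ (943 * s ^ 6)) ^ (6 * s ^ 2) := by
          refine Nat.pow_le_pow_right (by positivity) ?_
          rw [log_KB]
          exact b1
      _ = 2 ^ (5658 * s ^ 8) := by
          rw [← pow_mul]
          congr 1
          ring
  unfold NA
  calc TBf s * ((KB s ^ Nat.log 2 (KB s) * (KB s ^ Nat.log 2 (KB s) *
      (((KB s * KB s) ^ Nat.log 2 (KB s * KB s)) ^ Nat.log 2 (KB s) * (KB s + 1)))) ^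
        Nat.log 2 (KB s) * (KB s ^ Nat.log 2 (KB s)) ^ (2 * s + 1)) * 2 ^ s * 2 ^ s ≤
      2 ^ (32768 * s ^ 8) * (2 ^ (5658 * s ^ 8) * 2 ^ (108 * s ^ 5)) * 2 ^ s * 2 ^ s :=
        Nat.mul_le_mul_right _ (Nat.mul_le_mul_right _ (Nat.mul_le_mul e1 (Nat.mul_le_mul e6 e2)))
    _ = 2 ^ (32768 * s ^ 8 + (5658 * s ^ 8 + 108 * s ^ 5) + s + s) := by
        rw [← pow_add, ← pow_add, ← pow_add, ← pow_add]
    _ ≤ 2 ^ (s ^ 10) := by
        refine Nat.pow_le_pow_right (by norm_num) ?_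
        have a1 : s ^ 5 ≤ s ^ 8 := Nat.pow_le_pow_right hs1 (by norm_num)
        have a2 : s ≤ s ^ 8 := by
          calc s = s ^ 1 := (pow_one s).symm
            _ ≤ s ^ 8 := Nat.pow_le_pow_right hs1 (by norm_num)
        have a3 : 38536 ≤ s ^ 2 := by nlinarith
        calc 32768 * s ^ 8 + (5658 * s ^ 8 + 108 * s ^ 5) + s + s ≤ 38536 * s ^ 8 := by omega
          _ ≤ s ^ 2 * s ^ 8 := Nat.mul_le_mul_right _ a3
          _ = s ^ 10 := by ring

/-- all but `4 N / 2 ^ s` numbers are typical -/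
theorem main_all (D : ℕ) : ∃ s₀ : ℕ, 1 ≤ s₀ ∧ ∀ s, s₀ ≤ s →
    ∀ N : ℕ, 1 ≤ N → N < 2 ^ ((s + 1) ^ D) → ∀ A : Finset ℕ,
      (∀ n ∈ A, n ∈ Ioc 0 N ∧ ∃ (G : Type) (_ : Group G) (_ : Finite G), Nat.card G = n ∧
        2 ^ (s ^ 12) < Nat.gcd n (∑ H ∈ nsg G, Nat.card H)) →
      A.card * 2 ^ s ≤ 4 * N := by
  classical
  obtain ⟨s₁, hs₁⟩ := poly_le (2 * D + 2)
  refine ⟨max s₁ 197, le_trans (by norm_num) (le_max_right _ _), fun s hs N hN hNs A hA => ?_⟩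
  have hss₁ : s₁ ≤ s := (le_max_left _ _).trans hs
  have hs182 : 197 ≤ s := (le_max_right _ _).trans hs
  have hs1 : 1 ≤ s := by omega
  have hpoly := hs₁ s hss₁
  set Λ := (s + 1) ^ D with hΛ
  have hΛ1 : 1 ≤ Λ := Nat.one_le_pow _ _ (Nat.succ_pos s)
  have hΛ2 : 2 * Λ ^ 2 ≤ 2 ^ s := by
    calc 2 * Λ ^ 2 ≤ (s + 1) ^ 2 * ((s + 1) ^ D) ^ 2 := by
          refine Nat.mul_le_mul_right _ ?_
          nlinarith
      _ = (s + 1) ^ (2 * D + 2) := by ring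
      _ ≤ 2 ^ s := hpoly
  have hlog : 1 + Real.log N ≤ (2 : ℝ) ^ s := by
    have h1 : Real.log N ≤ (Λ : ℝ) * Real.log 2 := by
      rw [← Real.log_pow]
      exact Real.log_le_log (by exact_mod_cast hN) (by exact_mod_cast hNs.le)
    have h2 : Real.log 2 ≤ 1 := by linarith [Real.log_two_lt_d9]
    have h3 : (Λ : ℝ) * Real.log 2 ≤ Λ * 1 := mul_le_mul_of_nonneg_left h2 (Nat.cast_nonneg _)
    have h4 : ((1 + Λ : ℕ) : ℝ) ≤ ((2 ^ s : ℕ) : ℝ) := by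
      have : 1 + Λ ≤ 2 ^ s := by
        refine le_trans ?_ hΛ2
        nlinarith
      exact_mod_cast this
    push_cast at h4
    linarith
  have hNR : (0 : ℝ) ≤ N := Nat.cast_nonneg _
  set B := 2 ^ s with hB
  set z := 2 ^ (2 * s) with hz
  set y := 2 ^ (s ^ 10) with hy
  have hB1 : 1 ≤ B := Nat.one_le_two_pow
  have hz1 : 1 ≤ z := Nat.one_le_two_pow
  have hBz : B ≤ z := Nat.pow_le_pow_right (by norm_num) (by omega)
  have hzy : z ≤ y := by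
    refine Nat.pow_le_pow_right (by norm_num) ?_
    calc 2 * s ≤ s * s := Nat.mul_le_mul_right _ (by omega)
      _ = s ^ 2 := by ring
      _ ≤ s ^ 10 := Nat.pow_le_pow_right hs1 (by norm_num)
  set A₂ := A.filter (fun n => ∃ b, B < b ∧ b ^ 2 ∣ n) with hA₂
  set A₃ := A.filter (fun n => ∃ p, z < p ∧ p.Prime ∧ p ∣ n ∧
    ∃ c, c ∣ n ∧ c ≡ 1 [MOD p] ∧ c ≠ 1) with hA₃
  set A₅ := A.filter (fun n => 2 * s < n.primeFactors.card) with hA₅
  set A₆ := A \ (A₂ ∪ A₃ ∪ A₅) with hA₆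
  have hcov : A.card ≤ A₂.card + A₃.card + A₅.card + A₆.card := by
    have h1 : A ⊆ (A₂ ∪ A₃ ∪ A₅) ∪ A₆ := by
      intro n hn
      by_cases h : n ∈ A₂ ∪ A₃ ∪ A₅
      · exact mem_union_left _ h
      · exact mem_union_right _ (mem_sdiff.2 ⟨hn, h⟩)
    refine (card_le_card h1).trans ?_
    have u1 := card_union_le (A₂ ∪ A₃ ∪ A₅) A₆
    have u2 := card_union_le (A₂ ∪ A₃) A₅
    have u3 := card_union_le A₂ A₃
    omega
  have b2 : A₂.card * 2 ^ s ≤ N := by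
    have := bad2 N B hB1 A₂ (fun n hn => ⟨(hA n (mem_filter.1 hn).1).1, (mem_filter.1 hn).2⟩)
    exact_mod_cast this
  have b3 : A₃.card * 2 ^ s ≤ N := by
    have h1 := bad3 N z hz1 A₃ (fun n hn => ⟨(hA n (mem_filter.1 hn).1).1, (mem_filter.1 hn).2⟩)
    have h2 : (A₃.card : ℝ) * (2 : ℝ) ^ s * (2 : ℝ) ^ s ≤ N * (2 : ℝ) ^ s := by
      calc (A₃.card : ℝ) * (2 : ℝ) ^ s * (2 : ℝ) ^ s = (A₃.card : ℝ) * (z : ℝ) := by
            rw [hz]
            push_cast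
            ring
        _ ≤ N * (1 + Real.log N) := h1
        _ ≤ N * (2 : ℝ) ^ s := mul_le_mul_of_nonneg_left hlog hNR
    have h3 := le_of_mul_le_mul_right h2 (by positivity)
    exact_mod_cast h3
  have b5 : A₅.card * 2 ^ s ≤ N := by
    have h1 := bad5 N (2 * s) A₅ (fun n hn => ⟨(hA n (mem_filter.1 hn).1).1, (mem_filter.1 hn).2⟩)
    have h2 : (A₅.card : ℝ) * (2 : ℝ) ^ s * (2 : ℝ) ^ s ≤ N * (2 : ℝ) ^ s := by
      calc (A₅.card : ℝ) * (2 : ℝ) ^ s * (2 : ℝ) ^ s = (A₅.card : ℝ) * (2 : ℝ) ^ (2 * s) := by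
            ring
        _ ≤ N * (1 + Real.log N) := h1
        _ ≤ N * (2 : ℝ) ^ s := mul_le_mul_of_nonneg_left hlog hNR
    have h3 := le_of_mul_le_mul_right h2 (by positivity)
    exact_mod_cast h3
  have b6 : A₆.card * 2 ^ s ≤ N := by
    have hlogV : Nat.log 2 (N ^ Nat.log 2 N * N) ≤ 2 ^ s := by
      have hN0 : N ≠ 0 := by omega
      have h1 : Nat.log 2 N ≤ Λ := by
        have := Nat.log_lt_of_lt_pow hN0 hNs
        omega
      have h2 : N ^ Nat.log 2 N * N ≤ 2 ^ (Λ ^ 2 + Λ) := by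
        calc N ^ Nat.log 2 N * N ≤ (2 ^ Λ) ^ Λ * 2 ^ Λ := by
              refine Nat.mul_le_mul ?_ hNs.le
              exact (Nat.pow_le_pow_left hNs.le _).trans (Nat.pow_le_pow_right (by positivity) h1)
          _ = 2 ^ (Λ ^ 2 + Λ) := by
              rw [← pow_mul, ← pow_add]
              congr 1
              ring
      calc Nat.log 2 (N ^ Nat.log 2 N * N) ≤ Nat.log 2 (2 ^ (Λ ^ 2 + Λ)) := Nat.log_mono_right h2
        _ = Λ ^ 2 + Λ := Nat.log_pow (by norm_num) _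
        _ ≤ 2 * Λ ^ 2 := by nlinarith
        _ ≤ 2 ^ s := hΛ2
    have h1 := core_count (M := s) (Kb := KB s) (TB := TBf s) (W := 2 * s) (B := B) (z := z)
      (y := y) (N := N) (types_KB s hs1) hs1 Nat.one_le_two_pow hB1 hBz hzy A₆ (by
        intro n hn
        rw [hA₆, mem_sdiff] at hn
        obtain ⟨hnA, hnn⟩ := hn
        simp only [mem_union, not_or] at hnn
        obtain ⟨⟨n2, n3⟩, n5⟩ := hnn
        obtain ⟨hnN, G, iG, iF, hG, hgcd⟩ := hA n hnA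
        rw [mem_Ioc] at hnN
        have hn0 : n ≠ 0 := by omega
        have hsqB : ∀ b, B < b → ¬ b ^ 2 ∣ n := fun b hb hbn => n2 (mem_filter.2 ⟨hnA, b, hb, hbn⟩)
        have homega : n.primeFactors.card ≤ 2 * s := by
          by_contra h
          exact n5 (mem_filter.2 ⟨hnA, not_le.1 h⟩)
        refine ⟨mem_Ioc.2 hnN, hsqB, ?_, homega, ?_, G, iG, iF, hG, ?_⟩
        · intro p hp hpp hpn c hc hc1
          by_contra h
          exact n3 (mem_filter.2 ⟨hnA, p, hp, hpp, hpn, c, hc, hc1, h⟩)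
        · refine (cof_le hn0 hz1 hBz hsqB homega).trans (le_of_eq ?_)
          rw [hB, hz]
          unfold KB
          rw [← pow_mul, ← pow_mul, ← pow_add]
          congr 1
          ring
        · refine lt_of_le_of_lt ?_ hgcd
          calc B ^ 2 * y ^ (2 * s) = 2 ^ (2 * s + 2 * s ^ 11) := by
                rw [hB, hy, ← pow_mul, ← pow_mul, ← pow_add]
                congr 1
                ring
            _ ≤ 2 ^ (s ^ 12) := by
                refine Nat.pow_le_pow_right (by norm_num) ?_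
                have a2 : s ≤ s ^ 11 := by
                  calc s = s ^ 1 := (pow_one s).symm
                    _ ≤ s ^ 11 := Nat.pow_le_pow_right hs1 (by norm_num)
                calc 2 * s + 2 * s ^ 11 ≤ 2 * s ^ 11 + 2 * s ^ 11 := by gcongr
                  _ = 4 * s ^ 11 := by ring
                  _ ≤ s * s ^ 11 := Nat.mul_le_mul_right _ (by omega)
                  _ = s ^ 12 := by ring)
    calc A₆.card * 2 ^ s ≤ (N / y * (NA (TBf s) (KB s) (Nat.log 2 (KB s)) (2 * s) *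
          Nat.log 2 (N ^ Nat.log 2 N * N))) * 2 ^ s := Nat.mul_le_mul_right _ h1
      _ ≤ (N / y * (NA (TBf s) (KB s) (Nat.log 2 (KB s)) (2 * s) * 2 ^ s)) * 2 ^ s :=
          Nat.mul_le_mul_right _ (Nat.mul_le_mul_left _ (Nat.mul_le_mul_left _ hlogV))
      _ = N / y * (NA (TBf s) (KB s) (Nat.log 2 (KB s)) (2 * s) * 2 ^ s * 2 ^ s) := by ring
      _ ≤ N / y * y := Nat.mul_le_mul_left _ (NA_KB hs182)
      _ ≤ N := Nat.div_mul_le_self _ _
  calc A.card * 2 ^ s ≤ (A₂.card + A₃.card + A₅.card + A₆.card) * 2 ^ s := Nat.mul_le_mul_right _ hcov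
    _ = A₂.card * 2 ^ s + A₃.card * 2 ^ s + A₅.card * 2 ^ s + A₆.card * 2 ^ s := by ring
    _ ≤ 4 * N := by omega

end Pool.Agent.Helper72.LGA
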