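import Pool.Agent.Helper72.LGA.Main

/-!
# The equation `σ(G) = r |G|`
-/

set_option autoImplicit false

namespace Pool.Agent.Helper72.LGA

open Subgroup Finset Pool.Agent.Helper72.LG Pool.Agent.Helper72.LGS

/-- the two values of a typical number -/
theorem exists_pair {M n z q Kb : ℕ} (hM : 1 ≤ M) (hn : n ≠ 0) {G : Type} [Group G] [Finite G]
    (hG : Nat.card G = n) (hsq : ∀ p, z < p → p.Prime → ¬ p ^ 2 ∣ n)
    (hdiv : ∀ p, z < p → p.Prime → p ∣ n → ∀ c, c ∣ n → c ≡ 1 [MOD p] → c = 1)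
    (hq : q ∈ Sz z n) (hcof : cof z n ≤ Kb) :
    ∃ u ∈ VSA M Kb (Nat.log 2 Kb) (Sz z (n / q)), ∃ v ∈ VSA M Kb (Nat.log 2 Kb) (Sz z (n / q)),
      v ≠ 0 ∧ ∑ H ∈ nsg G, Nat.card H = q * u + v := by
  classical
  obtain ⟨-, h2, h3, -⟩ := remove' hn hq hsq
  have hex : ∀ p : ℕ, ∃ P : Subgroup G, p ∈ Sz z n → Lone P p := by
    intro p
    by_cases hp : p ∈ Sz z n
    · have hp' := (mem_Sz hn).1 hp
      obtain ⟨P, hP⟩ := exists_lone (G := G) hp'.1 (by rw [hG]; exact hp'.2.1)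
        (by rw [hG]; exact hsq p hp'.2.2 hp'.1) (by
          rw [hG]
          exact hdiv p hp'.2.2 hp'.1 hp'.2.1)
      exact ⟨P, fun _ => hP⟩
    · exact ⟨⊥, fun h => absurd h hp⟩
  choose P hP using hex
  set D : Subgroup G := (Sz z n).sup P with hD
  have hDn : D.Normal := by
    rw [hD]
    refine Finset.sup_induction (p := fun H : Subgroup G => H.Normal) ?_ ?_ ?_
    · infer_instance
    · intro a ha b hb
      infer_instance
    · intro p hp
      exact (hP p hp).normal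
  have hDc : Nat.card D = ∏ p ∈ Sz z n, p := card_sup_prod hP
  have hX : Nat.card (G ⧸ D) = cof z n := by
    have e3 := prod_Sz_pos z hn
    have e4 : cof z n * ∏ p ∈ Sz z n, p = Nat.card (G ⧸ D) * ∏ p ∈ Sz z n, p := by
      calc cof z n * ∏ p ∈ Sz z n, p = n := (eq_cof_mul z hn).symm
        _ = Nat.card (G ⧸ D) * Nat.card D := by
            rw [← hG]
            exact Subgroup.card_eq_card_quotient_mul_card_subgroup D
        _ = _ := by rw [hDc]
    exact (Nat.eq_of_mul_eq_mul_right e3 e4).symm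
  have hXle : Nat.card (G ⧸ D) ≤ Kb := by rw [hX]; exact hcof
  have hσ := sigma_eq hP (D := D) hD
  set K : ℕ → Subgroup (G ⧸ D) := fun p => (centralizer (P p : Set G)).map (QuotientGroup.mk' D) with hK
  have hKn : ∀ p ∈ Sz z n, (K p).Normal := by
    intro p hp
    have h4 := (hP p hp).normal
    have h5 : (centralizer (P p : Set G)).Normal := inferInstance
    exact h5.map _ (QuotientGroup.mk'_surjective D)
  have hsub : Sz z (n / q) ⊆ Sz z n := by
    rw [← h3]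
    exact subset_insert _ _
  refine ⟨VV (G ⧸ D) (Sz z (n / q)) K ⊤, exists_VA hM hXle _ _ (fun p hp => hKn p (hsub hp)) _
    inferInstance, VV (G ⧸ D) (Sz z (n / q)) K (K q),
    exists_VA hM hXle _ _ (fun p hp => hKn p (hsub hp)) _ (hKn q hq), ?_, ?_⟩
  · have hnq : n / q ≠ 0 := by
      intro h
      have := (remove' hn hq hsq).1
      rw [h, zero_mul] at this
      exact hn this
    exact (VV_pos (fun p hp => ((mem_Sz hnq).1 hp).1.pos)).ne'
  · rw [hσ, ← h3]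
    unfold VV
    rw [sum_filter, sum_filter, sum_filter, mul_sum, ← sum_add_distrib]
    refine sum_congr rfl fun H _ => ?_
    rw [if_pos le_top, if_pos le_top, prod_insert h2]
    split_ifs <;> ring

open scoped Classical in
/-- the number of the numbers with a given ratio -/
theorem count_ratio {M Kb TB : ℕ} (h' : ℕ) (hT : Types M Kb TB) (r : ℝ) {Gd Ms : Finset ℕ}
    {Sf : ℕ → Finset ℕ} {W : ℕ} (hKb : 1 ≤ Kb)
    (h : ∀ n ∈ Gd, ∃ m ∈ Ms, ∃ q, n = m * q ∧ 0 < q ∧ ∃ u ∈ VSA M Kb h' (Sf m),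
      ∃ v ∈ VSA M Kb h' (Sf m), v ≠ 0 ∧ ((q * u + v : ℕ) : ℝ) = r * n)
    (hS : ∀ m ∈ Ms, (Sf m).card ≤ W) :
    Gd.card ≤ Ms.card * (NA TB Kb h' W) ^ 2 := by
  have hA : ∀ m : ℕ, ∃ A : Finset ℕ, A.card ≤ NA TB Kb h' (Sf m).card ∧
    VSA M Kb h' (Sf m) ⊆ A := fun m => VSA_bound h' hT (Sf m)
  choose A hA1 hA2 using hA
  have hsub : Gd ⊆ Ms.biUnion (fun m => (A m ×ˢ A m).image
      (fun x => m * ⌊(x.2 : ℝ) / (r * m - x.1)⌋₊)) := by
    intro n hn
    obtain ⟨m, hm, q, hnq, hq, u, hu, v, hv, hv0, heq⟩ := h n hn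
    rw [mem_biUnion]
    refine ⟨m, hm, ?_⟩
    rw [mem_image]
    refine ⟨(u, v), mem_product.2 ⟨hA2 m hu, hA2 m hv⟩, ?_⟩
    have hq' : (0 : ℝ) < q := by exact_mod_cast hq
    have hv' : (v : ℝ) ≠ 0 := by exact_mod_cast hv0
    have h1 : (q : ℝ) * (r * m - u) = v := by
      rw [hnq] at heq
      push_cast at heq
      linarith
    have h2 : r * m - u ≠ 0 := by
      intro h3
      rw [h3, mul_zero] at h1
      exact hv' h1.symm
    have h4 : (v : ℝ) / (r * m - u) = q := by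
      rw [div_eq_iff h2]
      exact h1.symm
    show m * ⌊(v : ℝ) / (r * m - u)⌋₊ = n
    rw [h4, Nat.floor_natCast, hnq]
  refine (card_le_card hsub).trans (card_biUnion_le.trans ?_)
  rw [← smul_eq_mul]
  refine sum_le_card_nsmul _ _ _ fun m hm => ?_
  refine card_image_le.trans ?_
  rw [card_product, sq]
  have h1 := (hA1 m).trans (NA_mono (TB := TB) (h := h') hKb (hS m hm))
  exact Nat.mul_le_mul h1 h1

lemma NA_le {s : ℕ} (hs1 : 1 ≤ s) :
    NA (TBf s) (KB s) (Nat.log 2 (KB s)) (2 * s) ≤ 2 ^ (38534 * s ^ 8) := by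
  have hss : s ≤ s ^ 2 := by nlinarith
  have e1 : TBf s ≤ 2 ^ (32768 * s ^ 8) := TBf_le hs1
  have e2 : (KB s ^ Nat.log 2 (KB s)) ^ (2 * s + 1) ≤ 2 ^ (108 * s ^ 5) := KBpow_le hs1
  have b1 : 2 * s + 4 * s ^ 2 ≤ 6 * s ^ 2 := by nlinarith
  have a0 : s ^ 2 ≤ s ^ 6 := Nat.pow_le_pow_right hs1 (by norm_num)
  have a0' : s ^ 4 ≤ s ^ 6 := Nat.pow_le_pow_right hs1 (by norm_num)
  have hP : KB s ^ Nat.log 2 (KB s) ≤ 2 ^ (36 * s ^ 4) := by
    rw [log_KB]
    unfold KB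
    rw [← pow_mul]
    refine Nat.pow_le_pow_right (by norm_num) ?_
    calc (2 * s + 4 * s ^ 2) * (2 * s + 4 * s ^ 2) ≤ (6 * s ^ 2) * (6 * s ^ 2) := Nat.mul_le_mul b1 b1
      _ = 36 * s ^ 4 := by ring
  have e4 : KB s + 1 ≤ 2 ^ (7 * s ^ 2) := by
    unfold KB
    have h1 : 2 ^ (2 * s + 4 * s ^ 2) + 1 ≤ 2 ^ (2 * s + 4 * s ^ 2 + 1) := by
      generalize 2 * s + 4 * s ^ 2 = a
      have h2 := Nat.one_le_two_pow (n := a)
      have h3 : 2 ^ (a + 1) = 2 ^ a + 2 ^ a := by ring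
      omega
    refine h1.trans (Nat.pow_le_pow_right (by norm_num) ?_)
    have : 1 ≤ s ^ 2 := Nat.one_le_pow _ _ hs1
    omega
  have e5 : ((KB s * KB s) ^ Nat.log 2 (KB s * KB s)) ^ Nat.log 2 (KB s) ≤ 2 ^ (864 * s ^ 6) := by
    have h0 : KB s * KB s = 2 ^ (2 * (2 * s + 4 * s ^ 2)) := by
      unfold KB
      rw [← pow_add]
      congr 1
      ring
    have h1 : Nat.log 2 (KB s * KB s) = 2 * (2 * s + 4 * s ^ 2) := by
      rw [h0, Nat.log_pow (by norm_num)]
    rw [h1, h0, log_KB, ← pow_mul, ← pow_mul]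
    refine Nat.pow_le_pow_right (by norm_num) ?_
    calc 2 * (2 * s + 4 * s ^ 2) * (2 * (2 * s + 4 * s ^ 2) * (2 * s + 4 * s ^ 2)) ≤
        2 * (6 * s ^ 2) * (2 * (6 * s ^ 2) * (6 * s ^ 2)) :=
          Nat.mul_le_mul (Nat.mul_le_mul_left _ b1) (Nat.mul_le_mul (Nat.mul_le_mul_left _ b1) b1)
      _ = 864 * s ^ 6 := by ring
  have e6 : (KB s ^ Nat.log 2 (KB s) * (KB s ^ Nat.log 2 (KB s) *
      (((KB s * KB s) ^ Nat.log 2 (KB s * KB s)) ^ Nat.log 2 (KB s) * (KB s + 1)))) ^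
        Nat.log 2 (KB s) ≤ 2 ^ (5658 * s ^ 8) := by
    have h1 : KB s ^ Nat.log 2 (KB s) * (KB s ^ Nat.log 2 (KB s) *
      (((KB s * KB s) ^ Nat.log 2 (KB s * KB s)) ^ Nat.log 2 (KB s) * (KB s + 1))) ≤
        2 ^ (943 * s ^ 6) := by
      calc KB s ^ Nat.log 2 (KB s) * (KB s ^ Nat.log 2 (KB s) *
          (((KB s * KB s) ^ Nat.log 2 (KB s * KB s)) ^ Nat.log 2 (KB s) * (KB s + 1))) ≤
          2 ^ (36 * s ^ 4) * (2 ^ (36 * s ^ 4) * (2 ^ (864 * s ^ 6) * 2 ^ (7 * s ^ 2))) :=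
            Nat.mul_le_mul hP (Nat.mul_le_mul hP (Nat.mul_le_mul e5 e4))
        _ = 2 ^ (36 * s ^ 4 + (36 * s ^ 4 + (864 * s ^ 6 + 7 * s ^ 2))) := by
            rw [← pow_add, ← pow_add, ← pow_add]
        _ ≤ 2 ^ (943 * s ^ 6) := Nat.pow_le_pow_right (by norm_num) (by omega)
    calc (KB s ^ Nat.log 2 (KB s) * (KB s ^ Nat.log 2 (KB s) *
      (((KB s * KB s) ^ Nat.log 2 (KB s * KB s)) ^ Nat.log 2 (KB s) * (KB s + 1)))) ^
        Nat.log 2 (KB s) ≤ (2 ^ (943 * s ^ 6)) ^ Nat.log 2 (KB s) := Nat.pow_le_pow_left h1 _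
      _ ≤ (2 ^ (943 * s ^ 6)) ^ (6 * s ^ 2) := by
          refine Nat.pow_le_pow_right (by positivity) ?_
          rw [log_KB]
          exact b1
      _ = 2 ^ (5658 * s ^ 8) := by
          rw [← pow_mul]
          congr 1
          ring
  unfold NA
  calc TBf s * ((KB s ^ Nat.log 2 (KB s) * (KB s ^ Nat.log 2 (KB s) *
      (((KB s * KB s) ^ Nat.log 2 (KB s * KB s)) ^ Nat.log 2 (KB s) * (KB s + 1)))) ^
        Nat.log 2 (KB s) * (KB s ^ Nat.log 2 (KB s)) ^ (2 * s + 1)) ≤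
      2 ^ (32768 * s ^ 8) * (2 ^ (5658 * s ^ 8) * 2 ^ (108 * s ^ 5)) :=
        Nat.mul_le_mul e1 (Nat.mul_le_mul e6 e2)
    _ = 2 ^ (32768 * s ^ 8 + (5658 * s ^ 8 + 108 * s ^ 5)) := by
        rw [← pow_add, ← pow_add]
    _ ≤ 2 ^ (38534 * s ^ 8) := by
        refine Nat.pow_le_pow_right (by norm_num) ?_
        have a1 : s ^ 5 ≤ s ^ 8 := Nat.pow_le_pow_right hs1 (by norm_num)
        omega

/-- the counting theorem in the parameter `s` -/
theorem main_ratio : ∃ s₀ : ℕ, 1 ≤ s₀ ∧ ∀ s, s₀ ≤ s →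
    ∀ N : ℕ, 2 ^ (s ^ 11) ≤ N → N < 2 ^ ((s + 1) ^ 11) → ∀ r : ℝ, ∀ A : Finset ℕ,
      (∀ n ∈ A, n ∈ Ioc 0 N ∧ ∃ (G : Type) (_ : Group G) (_ : Finite G), Nat.card G = n ∧
        ((∑ H ∈ nsg G, Nat.card H : ℕ) : ℝ) = r * n) →
      A.card * 2 ^ s ≤ 5 * N := by
  classical
  obtain ⟨s₁, hs₁⟩ := poly_le (2 * 11 + 2)
  refine ⟨max s₁ 77070, le_trans (by norm_num) (le_max_right _ _), fun s hs N hNlow hNs r A hA => ?_⟩
  have hss₁ : s₁ ≤ s := (le_max_left _ _).trans hs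
  have hs182 : 77070 ≤ s := (le_max_right _ _).trans hs
  have hs1 : 1 ≤ s := by omega
  have hN : 1 ≤ N := le_trans Nat.one_le_two_pow hNlow
  have hpoly := hs₁ s hss₁
  set Λ := (s + 1) ^ 11 with hΛ
  have hΛ1 : 1 ≤ Λ := Nat.one_le_pow _ _ (Nat.succ_pos s)
  have hΛ2 : 2 * Λ ^ 2 ≤ 2 ^ s := by
    calc 2 * Λ ^ 2 ≤ (s + 1) ^ 2 * ((s + 1) ^ 11) ^ 2 := by
          refine Nat.mul_le_mul_right _ ?_
          nlinarith
      _ = (s + 1) ^ (2 * 11 + 2) := by ring
      _ ≤ 2 ^ s := hpoly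
  have hlog : 1 + Real.log N ≤ (2 : ℝ) ^ s := by
    have h1 : Real.log N ≤ (Λ : ℝ) * Real.log 2 := by
      rw [← Real.log_pow]
      exact Real.log_le_log (by exact_mod_cast hN) (by exact_mod_cast hNs.le)
    have h2 : Real.log 2 ≤ 1 := by linarith [Real.log_two_lt_d9]
    have h3 : (Λ : ℝ) * Real.log 2 ≤ Λ * 1 := mul_le_mul_of_nonneg_left h2 (Nat.cast_nonneg _)
    have h4 : ((1 + Λ : ℕ) : ℝ) ≤ ((2 ^ s : ℕ) : ℝ) := by
      have : 1 + Λ ≤ 2 ^ s := by
        refine le_trans ?_ hΛ2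
        nlinarith
      exact_mod_cast this
    push_cast at h4
    linarith
  have hNR : (0 : ℝ) ≤ N := Nat.cast_nonneg _
  set B := 2 ^ s with hB
  set z := 2 ^ (2 * s) with hz
  set y := 2 ^ (s ^ 9) with hy
  have hB1 : 1 ≤ B := Nat.one_le_two_pow
  have hz1 : 1 ≤ z := Nat.one_le_two_pow
  have hBz : B ≤ z := Nat.pow_le_pow_right (by norm_num) (by omega)
  have hzy : z ≤ y := by
    refine Nat.pow_le_pow_right (by norm_num) ?_
    calc 2 * s ≤ s * s := Nat.mul_le_mul_right _ (by omega)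
      _ = s ^ 2 := by ring
      _ ≤ s ^ 9 := Nat.pow_le_pow_right hs1 (by norm_num)
  set A₁ := A.filter (fun n => n * B ≤ N) with hA₁
  set A₂ := A.filter (fun n => ∃ b, B < b ∧ b ^ 2 ∣ n) with hA₂
  set A₃ := A.filter (fun n => ∃ p, z < p ∧ p.Prime ∧ p ∣ n ∧
    ∃ c, c ∣ n ∧ c ≡ 1 [MOD p] ∧ c ≠ 1) with hA₃
  set A₅ := A.filter (fun n => 2 * s < n.primeFactors.card) with hA₅
  set A₆ := A \ (A₁ ∪ A₂ ∪ A₃ ∪ A₅) with hA₆
  have hcov : A.card ≤ A₁.card + A₂.card + A₃.card + A₅.card + A₆.card := by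
    have h1 : A ⊆ (A₁ ∪ A₂ ∪ A₃ ∪ A₅) ∪ A₆ := by
      intro n hn
      by_cases h : n ∈ A₁ ∪ A₂ ∪ A₃ ∪ A₅
      · exact mem_union_left _ h
      · exact mem_union_right _ (mem_sdiff.2 ⟨hn, h⟩)
    refine (card_le_card h1).trans ?_
    have u1 := card_union_le (A₁ ∪ A₂ ∪ A₃ ∪ A₅) A₆
    have u2 := card_union_le (A₁ ∪ A₂ ∪ A₃) A₅
    have u3 := card_union_le (A₁ ∪ A₂) A₃
    have u4 := card_union_le A₁ A₂
    omega
  have b1 : A₁.card * 2 ^ s ≤ N :=
    bad1 N B A₁ (fun n hn => ⟨(hA n (mem_filter.1 hn).1).1, (mem_filter.1 hn).2⟩)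
  have b2 : A₂.card * 2 ^ s ≤ N := by
    have := bad2 N B hB1 A₂ (fun n hn => ⟨(hA n (mem_filter.1 hn).1).1, (mem_filter.1 hn).2⟩)
    exact_mod_cast this
  have b3 : A₃.card * 2 ^ s ≤ N := by
    have h1 := bad3 N z hz1 A₃ (fun n hn => ⟨(hA n (mem_filter.1 hn).1).1, (mem_filter.1 hn).2⟩)
    have h2 : (A₃.card : ℝ) * (2 : ℝ) ^ s * (2 : ℝ) ^ s ≤ N * (2 : ℝ) ^ s := by
      calc (A₃.card : ℝ) * (2 : ℝ) ^ s * (2 : ℝ) ^ s = (A₃.card : ℝ) * (z : ℝ) := by
            rw [hz]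
            push_cast
            ring
        _ ≤ N * (1 + Real.log N) := h1
        _ ≤ N * (2 : ℝ) ^ s := mul_le_mul_of_nonneg_left hlog hNR
    have h3 := le_of_mul_le_mul_right h2 (by positivity)
    exact_mod_cast h3
  have b5 : A₅.card * 2 ^ s ≤ N := by
    have h1 := bad5 N (2 * s) A₅ (fun n hn => ⟨(hA n (mem_filter.1 hn).1).1, (mem_filter.1 hn).2⟩)
    have h2 : (A₅.card : ℝ) * (2 : ℝ) ^ s * (2 : ℝ) ^ s ≤ N * (2 : ℝ) ^ s := by
      calc (A₅.card : ℝ) * (2 : ℝ) ^ s * (2 : ℝ) ^ s = (A₅.card : ℝ) * (2 : ℝ) ^ (2 * s) := by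
            ring
        _ ≤ N * (1 + Real.log N) := h1
        _ ≤ N * (2 : ℝ) ^ s := mul_le_mul_of_nonneg_left hlog hNR
    have h3 := le_of_mul_le_mul_right h2 (by positivity)
    exact_mod_cast h3
  have b6 : A₆.card * 2 ^ s ≤ N := by
    set Ms := (Ioc 0 (N / y)).filter (fun m => (Sz z m).card ≤ 2 * s) with hMs
    have hcount := count_ratio (M := s) (Kb := KB s) (TB := TBf s) (Nat.log 2 (KB s))
      (types_KB s hs1) r (Gd := A₆) (Ms := Ms) (Sf := Sz z) (W := 2 * s) Nat.one_le_two_pow (by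
        intro n hn
        rw [hA₆, mem_sdiff] at hn
        obtain ⟨hnA, hnn⟩ := hn
        simp only [mem_union, not_or] at hnn
        obtain ⟨⟨⟨n1, n2⟩, n3⟩, n5⟩ := hnn
        obtain ⟨hnN, G, iG, iF, hG, hrat⟩ := hA n hnA
        rw [mem_Ioc] at hnN
        have hn0 : n ≠ 0 := by omega
        have hnB : N < n * B := by
          by_contra h
          exact n1 (mem_filter.2 ⟨hnA, not_lt.1 h⟩)
        have hsqB : ∀ b, B < b → ¬ b ^ 2 ∣ n := fun b hb hbn => n2 (mem_filter.2 ⟨hnA, b, hb, hbn⟩)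
        have hsq : ∀ p, z < p → p.Prime → ¬ p ^ 2 ∣ n := fun p hp _ => hsqB p (lt_of_le_of_lt hBz hp)
        have hdiv : ∀ p, z < p → p.Prime → p ∣ n → ∀ c, c ∣ n → c ≡ 1 [MOD p] → c = 1 := by
          intro p hp hpp hpn c hc hc1
          by_contra h
          exact n3 (mem_filter.2 ⟨hnA, p, hp, hpp, hpn, c, hc, hc1, h⟩)
        have homega : n.primeFactors.card ≤ 2 * s := by
          by_contra h
          exact n5 (mem_filter.2 ⟨hnA, not_le.1 h⟩)
        have hcof : cof z n ≤ KB s := by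
          refine (cof_le hn0 hz1 hBz hsqB homega).trans (le_of_eq ?_)
          rw [hB, hz]
          unfold KB
          rw [← pow_mul, ← pow_mul, ← pow_add]
          congr 1
          ring
        have hpow : B ^ 2 * y ^ (2 * s) * B < 2 ^ (s ^ 11) := by
          calc B ^ 2 * y ^ (2 * s) * B = 2 ^ (3 * s + 2 * s ^ 10) := by
                rw [hB, hy, ← pow_mul, ← pow_mul, ← pow_add, ← pow_add]
                congr 1
                ring
            _ < 2 ^ (s ^ 11) := by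
                refine Nat.pow_lt_pow_right (by norm_num) ?_
                have a2 : s ≤ s ^ 10 := by
                  calc s = s ^ 1 := (pow_one s).symm
                    _ ≤ s ^ 10 := Nat.pow_le_pow_right hs1 (by norm_num)
                have a3 : 1 ≤ s ^ 10 := Nat.one_le_pow _ _ hs1
                calc 3 * s + 2 * s ^ 10 ≤ 5 * s ^ 10 := by omega
                  _ < s * s ^ 10 := Nat.mul_lt_mul_of_pos_right (by omega) a3
                  _ = s ^ 11 := by ring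
        have hn2 : 2 ≤ n := by
          by_contra hlt
          have hn1 : n ≤ 1 := by omega
          have h1 : n * B ≤ B := by
            calc n * B ≤ 1 * B := Nat.mul_le_mul_right _ hn1
              _ = B := one_mul B
          have h2 : B ≤ B ^ 2 * y ^ (2 * s) * B :=
            Nat.le_mul_of_pos_left _ (Nat.mul_pos (by positivity) (by positivity))
          omega
        have hpm : y < pm n := by
          by_contra hcon
          push Not at hcon
          have h1 : n ≤ B ^ 2 * pm n ^ (2 * s) := le_pm_pow hn2 hsqB homega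
          have h2 : n * B ≤ B ^ 2 * y ^ (2 * s) * B :=
            Nat.mul_le_mul_right _ (h1.trans (Nat.mul_le_mul_left _ (Nat.pow_le_pow_left hcon _)))
          omega
        have h3 := pm_mem hn2
        rw [Nat.mem_primeFactors] at h3
        have hzq : z < pm n := lt_of_le_of_lt hzy hpm
        have hqS : pm n ∈ Sz z n := (mem_Sz hn0).2 ⟨h3.1, h3.2.1, hzq⟩
        obtain ⟨u, hu, v, hv, hv0, huv⟩ := exists_pair (M := s) hs1 hn0 hG hsq hdiv hqS hcof
        obtain ⟨r1, r2, r3, -⟩ := remove' hn0 hqS hsq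
        have hm0 : 0 < n / pm n := by
          rcases Nat.eq_zero_or_pos (n / pm n) with h | h
          · rw [h, zero_mul] at r1
            exact absurd r1 hn0
          · exact h
        refine ⟨n / pm n, ?_, pm n, r1, h3.1.pos, u, hu, v, hv, hv0, ?_⟩
        · rw [hMs, mem_filter, mem_Ioc]
          refine ⟨⟨hm0, ?_⟩, ?_⟩
          · exact (Nat.div_le_div_right hnN.2).trans (Nat.div_le_div_left hpm.le (by positivity))
          · have h8 : Sz z (n / pm n) ⊆ n.primeFactors := by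
              refine (Finset.subset_insert (pm n) _).trans ?_
              rw [r3]
              exact filter_subset _ _
            exact (card_le_card h8).trans homega
        · rw [← huv]
          exact hrat)
      (by
        intro m hm
        rw [hMs, mem_filter] at hm
        exact hm.2)
    have hMc : Ms.card ≤ N / y := by
      calc Ms.card ≤ (Ioc 0 (N / y)).card := card_le_card (filter_subset _ _)
        _ = _ := by rw [Nat.card_Ioc, Nat.sub_zero]
    have hNA := NA_le hs1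
    calc A₆.card * 2 ^ s ≤ (N / y * (NA (TBf s) (KB s) (Nat.log 2 (KB s)) (2 * s)) ^ 2) * 2 ^ s :=
          Nat.mul_le_mul_right _ (hcount.trans (Nat.mul_le_mul_right _ hMc))
      _ ≤ (N / y * (2 ^ (38534 * s ^ 8)) ^ 2) * 2 ^ s :=
          Nat.mul_le_mul_right _ (Nat.mul_le_mul_left _ (Nat.pow_le_pow_left hNA 2))
      _ = N / y * 2 ^ (77068 * s ^ 8 + s) := by
          rw [← pow_mul, mul_assoc, ← pow_add]
          congr 2
          ring
      _ ≤ N / y * y := by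
          refine Nat.mul_le_mul_left _ (Nat.pow_le_pow_right (by norm_num) ?_)
          have a2 : s ≤ s ^ 8 := by
            calc s = s ^ 1 := (pow_one s).symm
              _ ≤ s ^ 8 := Nat.pow_le_pow_right hs1 (by norm_num)
          calc 77068 * s ^ 8 + s ≤ 77069 * s ^ 8 := by omega
            _ ≤ s * s ^ 8 := Nat.mul_le_mul_right _ (by omega)
            _ = s ^ 9 := by ring
      _ ≤ N := Nat.div_mul_le_self _ _
  calc A.card * 2 ^ s ≤ (A₁.card + A₂.card + A₃.card + A₅.card + A₆.card) * 2 ^ s :=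
        Nat.mul_le_mul_right _ hcov
    _ = A₁.card * 2 ^ s + A₂.card * 2 ^ s + A₃.card * 2 ^ s + A₅.card * 2 ^ s + A₆.card * 2 ^ s := by
        ring
    _ ≤ 5 * N := by omega

end Pool.Agent.Helper72.LGA
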