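import Pool.Agent.Helper72.LGA.Ratio
import Pool.Agent.Helper72.LGS.Real

/-!
# The equation `σ(G) = r |G|`, real form
-/

set_option autoImplicit false

namespace Pool.Agent.Helper72.LGA

open Subgroup Finset Pool.Agent.Helper72.LG Pool.Agent.Helper72.LGS

open scoped Classical in
/-- `n` is the order of a finite group `G` with `σ(G) = r |G|` -/
def IsRatio (r : ℝ) (n : ℕ) : Prop :=
  ∃ (G : Type) (_ : Group G) (_ : Fintype G), Fintype.card G = n ∧
    ∑ H : {H : Subgroup G // H.Normal}, (Nat.card H : ℝ) = r * n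

lemma IsRatio.pos {r : ℝ} {n : ℕ} (h : IsRatio r n) : 0 < n := by
  obtain ⟨G, iG, iF, hcard, -⟩ := h
  rw [← hcard]
  exact Fintype.card_pos

theorem ratio_real : ∃ C : ℝ, ∀ r : ℝ, ∀ x : ℝ, 2 ≤ x →
    (Set.ncard {n : ℕ | (n : ℝ) ≤ x ∧ IsRatio r n} : ℝ) ≤
      C * x * Real.exp (-(Real.log x ^ (1 / 12 : ℝ))) := by
  classical
  obtain ⟨s₀, hs₀1, hs₀⟩ := main_ratio
  have hl2 : (0 : ℝ) < Real.log 2 := Real.log_pos (by norm_num)
  have hl2' : Real.log 2 < 1 := by linarith [Real.log_two_lt_d9]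
  have hl2'' : (0.69 : ℝ) < Real.log 2 := by linarith [Real.log_two_gt_d9]
  set s₁ := max s₀ (4 ^ 12) with hs₁
  refine ⟨max 5 (Real.exp (s₁ + 1)), fun r x hx => ?_⟩
  set N := ⌊x⌋₊ with hN
  have hx0 : 0 ≤ x := by linarith
  have hNx : (N : ℝ) ≤ x := Nat.floor_le hx0
  have hxN : x < N + 1 := Nat.lt_floor_add_one x
  have hN2 : 2 ≤ N := Nat.le_floor (by exact_mod_cast hx)
  have hlogx : 0 < Real.log x := Real.log_pos (by linarith)
  have hfin : {n : ℕ | (n : ℝ) ≤ x ∧ IsRatio r n}.Finite :=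
    (Set.finite_Iic N).subset fun n hn => Nat.le_floor hn.1
  set A := hfin.toFinset with hA
  have hAmem : ∀ n ∈ A, n ∈ Ioc 0 N ∧ IsRatio r n := by
    intro n hn
    rw [hA, Set.Finite.mem_toFinset] at hn
    exact ⟨mem_Ioc.2 ⟨hn.2.pos, Nat.le_floor hn.1⟩, hn.2⟩
  rw [Set.ncard_eq_toFinset_card _ hfin, ← hA]
  have hAN : (A.card : ℝ) ≤ x := by
    have h1 : A.card ≤ N := by
      calc A.card ≤ (Ioc 0 N).card := card_le_card fun n hn => (hAmem n hn).1
        _ = N := by rw [Nat.card_Ioc, Nat.sub_zero]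
    exact (by exact_mod_cast h1 : (A.card : ℝ) ≤ N).trans hNx
  obtain ⟨s, hsl, hsu⟩ := exists_root (l := Nat.log 2 N) (D := 11) (by norm_num)
  have hN0 : N ≠ 0 := by omega
  have hNlow : 2 ^ (s ^ 11) ≤ N :=
    (Nat.pow_le_pow_right (by norm_num) hsl).trans (Nat.pow_log_le_self 2 hN0)
  have hNup : N + 1 ≤ 2 ^ ((s + 1) ^ 11) := by
    calc N + 1 ≤ 2 ^ (Nat.log 2 N + 1) := Nat.lt_pow_succ_log_self (by norm_num) N
      _ ≤ 2 ^ ((s + 1) ^ 11) := Nat.pow_le_pow_right (by norm_num) hsu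
  have hlog : Real.log x ≤ ((s : ℝ) + 1) ^ 11 := by
    have h1 : x ≤ (2 : ℝ) ^ ((s + 1) ^ 11) := by
      have h2 : ((N + 1 : ℕ) : ℝ) ≤ ((2 ^ ((s + 1) ^ 11) : ℕ) : ℝ) := by exact_mod_cast hNup
      push_cast at h2
      linarith
    have h2 : Real.log x ≤ Real.log ((2 : ℝ) ^ ((s + 1) ^ 11)) := Real.log_le_log (by linarith) h1
    rw [Real.log_pow] at h2
    have h4 : (((s + 1) ^ 11 : ℕ) : ℝ) * Real.log 2 ≤ ((s + 1) ^ 11 : ℕ) * 1 :=
      mul_le_mul_of_nonneg_left hl2'.le (Nat.cast_nonneg _)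
    push_cast at h2 h4
    linarith
  have hs10 : (0 : ℝ) < (s : ℝ) + 1 := by positivity
  have hlogc : Real.log x ^ (1 / 12 : ℝ) * ((s : ℝ) + 1) ^ (1 / 12 : ℝ) ≤ (s : ℝ) + 1 := by
    calc Real.log x ^ (1 / 12 : ℝ) * ((s : ℝ) + 1) ^ (1 / 12 : ℝ) ≤
        (((s : ℝ) + 1) ^ 11) ^ (1 / 12 : ℝ) * ((s : ℝ) + 1) ^ (1 / 12 : ℝ) :=
          mul_le_mul_of_nonneg_right (Real.rpow_le_rpow hlogx.le hlog (by norm_num)) (by positivity)
      _ = (s : ℝ) + 1 := by
          rw [← Real.mul_rpow (by positivity) hs10.le, ← pow_succ, ← Real.rpow_natCast,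
            ← Real.rpow_mul hs10.le]
          norm_num
  rcases lt_or_ge s s₁ with hlt | hge
  · have h1 : Real.log x ^ (1 / 12 : ℝ) ≤ s₁ + 1 := by
      have h2 : (1 : ℝ) ≤ ((s : ℝ) + 1) ^ (1 / 12 : ℝ) :=
        Real.one_le_rpow (by linarith [Nat.cast_nonneg (α := ℝ) s]) (by norm_num)
      have h3 : (0 : ℝ) ≤ Real.log x ^ (1 / 12 : ℝ) := by positivity
      have h4 : Real.log x ^ (1 / 12 : ℝ) ≤
          Real.log x ^ (1 / 12 : ℝ) * ((s : ℝ) + 1) ^ (1 / 12 : ℝ) := le_mul_of_one_le_right h3 h2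
      have h5 : (s : ℝ) ≤ s₁ := by exact_mod_cast hlt.le
      linarith
    calc (A.card : ℝ) ≤ x := hAN
      _ = Real.exp (s₁ + 1) * x * Real.exp (-((s₁ : ℝ) + 1)) := by
          rw [mul_right_comm, ← Real.exp_add, add_neg_cancel, Real.exp_zero, one_mul]
      _ ≤ Real.exp (s₁ + 1) * x * Real.exp (-(Real.log x ^ (1 / 12 : ℝ))) := by
          refine mul_le_mul_of_nonneg_left (Real.exp_le_exp.2 (by linarith)) (by positivity)
      _ ≤ max 5 (Real.exp (s₁ + 1)) * x * Real.exp (-(Real.log x ^ (1 / 12 : ℝ))) := by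
          refine mul_le_mul_of_nonneg_right ?_ (Real.exp_pos _).le
          exact mul_le_mul_of_nonneg_right (le_max_right _ _) hx0
  · have hs4 : 4 ^ 12 ≤ s := (le_max_right _ _).trans hge
    have hss₀ : s₀ ≤ s := (le_max_left _ _).trans hge
    have hsR : (4 : ℝ) ^ 12 ≤ s := by exact_mod_cast hs4
    have hlogs : Real.log x ^ (1 / 12 : ℝ) ≤ s * Real.log 2 := by
      have h2 : (4 : ℝ) ≤ ((s : ℝ) + 1) ^ (1 / 12 : ℝ) := by
        calc (4 : ℝ) = ((4 : ℝ) ^ 12) ^ (1 / 12 : ℝ) := by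
              rw [← Real.rpow_natCast, ← Real.rpow_mul (by norm_num)]
              norm_num
          _ ≤ ((s : ℝ) + 1) ^ (1 / 12 : ℝ) :=
              Real.rpow_le_rpow (by positivity) (by linarith) (by norm_num)
      have h3 : (0 : ℝ) ≤ Real.log x ^ (1 / 12 : ℝ) := by positivity
      have h4 : Real.log x ^ (1 / 12 : ℝ) * 4 ≤ (s : ℝ) + 1 :=
        (mul_le_mul_of_nonneg_left h2 h3).trans hlogc
      nlinarith
    have hmain := hs₀ s hss₀ N hNlow (by omega) r A (by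
      intro n hn
      obtain ⟨h1, G, iG, iF, hcard, hrat⟩ := hAmem n hn
      refine ⟨h1, G, iG, inferInstance, by rw [Nat.card_eq_fintype_card, hcard], ?_⟩
      rw [← hrat, ← sum_subtype_nat G]
      push_cast
      rfl)
    have h2s : (0 : ℝ) < (2 : ℝ) ^ s := by positivity
    have hmain' : (A.card : ℝ) * (2 : ℝ) ^ s ≤ 5 * N := by exact_mod_cast hmain
    have h3 : (2 : ℝ) ^ s = Real.exp (s * Real.log 2) := by
      rw [mul_comm, Real.exp_mul, Real.exp_log (by norm_num), Real.rpow_natCast]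
    calc (A.card : ℝ) ≤ 5 * N / (2 : ℝ) ^ s := by
          rw [le_div_iff₀ h2s]
          exact hmain'
      _ = 5 * N * Real.exp (-(s * Real.log 2)) := by
          rw [h3, Real.exp_neg]
          rfl
      _ ≤ 5 * x * Real.exp (-(Real.log x ^ (1 / 12 : ℝ))) := by
          refine mul_le_mul ?_ (Real.exp_le_exp.2 (by linarith)) (Real.exp_pos _).le (by positivity)
          linarith
      _ ≤ max 5 (Real.exp (s₁ + 1)) * x * Real.exp (-(Real.log x ^ (1 / 12 : ℝ))) := by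
          refine mul_le_mul_of_nonneg_right ?_ (Real.exp_pos _).le
          exact mul_le_mul_of_nonneg_right (le_max_left _ _) hx0

end Pool.Agent.Helper72.LGA
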