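import Pool.Agent.Helper72.LGA.Main
import Pool.Agent.Helper72.LGS.Real

/-!
# The real form of the theorem for all groups
-/

set_option autoImplicit false

namespace Pool.Agent.Helper72.LGA

open Subgroup Finset Pool.Agent.Helper72.LG Pool.Agent.Helper72.LGS

open scoped Classical in
/-- `n` is the order of a finite group such that the greatest common divisor of `n` and the sum of
the orders of the normal subgroups is larger than `Z` -/
def Large (Z : ℝ) (n : ℕ) : Prop :=
  ∃ (G : Type) (_ : Group G) (_ : Fintype G), Fintype.card G = n ∧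
    Z < (Nat.gcd n (∑ H : {H : Subgroup G // H.Normal}, Nat.card H) : ℝ)

lemma Large.pos {Z : ℝ} {n : ℕ} (h : Large Z n) : 0 < n := by
  obtain ⟨G, iG, iF, hcard, -⟩ := h
  rw [← hcard]
  exact Fintype.card_pos

lemma large_finite {x : ℝ} (Z : ℕ → ℝ) : {n : ℕ | (n : ℝ) ≤ x ∧ Large (Z n) n}.Finite :=
  (Set.finite_Iic ⌊x⌋₊).subset fun _ hn => Nat.le_floor hn.1

lemma large_ncard_le {x : ℝ} (hx : 0 ≤ x) (Z : ℕ → ℝ) :
    (Set.ncard {n : ℕ | (n : ℝ) ≤ x ∧ Large (Z n) n} : ℝ) ≤ x := by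
  have h2 : {n : ℕ | (n : ℝ) ≤ x ∧ Large (Z n) n} ⊆ ((Ioc 0 ⌊x⌋₊ : Finset ℕ) : Set ℕ) := by
    intro n hn
    rw [mem_coe, mem_Ioc]
    exact ⟨hn.2.pos, Nat.le_floor hn.1⟩
  have h3 := Set.ncard_le_ncard h2 (Finset.finite_toSet _)
  rw [Set.ncard_coe_finset, Nat.card_Ioc, Nat.sub_zero] at h3
  exact (by exact_mod_cast h3 : (_ : ℝ) ≤ (⌊x⌋₊ : ℝ)).trans (Nat.floor_le hx)

theorem all_x {ε : ℝ} (hε : 0 < ε) : ∃ c : ℝ, 0 < c ∧ c ≤ 1 / 2 ∧ ∃ C : ℝ, ∀ x : ℝ, 2 ≤ x →
      (Set.ncard {n : ℕ | (n : ℝ) ≤ x ∧ Large (Real.exp (Real.log x ^ ε)) n} : ℝ) ≤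
        C * x * Real.exp (-(Real.log x ^ c)) := by
  classical
  obtain ⟨D, hD⟩ := exists_nat_ge (13 / ε)
  have hD1 : 1 ≤ D := by
    rcases Nat.eq_zero_or_pos D with h | h
    · rw [h, Nat.cast_zero] at hD
      exact absurd hD (not_le.2 (by positivity))
    · exact h
  have hDε : 13 ≤ (D : ℝ) * ε := by
    rw [div_le_iff₀ hε] at hD
    exact hD
  have hDR : (1 : ℝ) ≤ D := by exact_mod_cast hD1
  obtain ⟨s₀, hs₀1, hs₀⟩ := main_all D
  obtain ⟨s₂, hs₂⟩ := exists_nat_ge ((Real.log 2) ^ (-ε))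
  have hl2 : (0 : ℝ) < Real.log 2 := Real.log_pos (by norm_num)
  have hl2' : Real.log 2 < 1 := by linarith [Real.log_two_lt_d9]
  have hl2'' : (0.69 : ℝ) < Real.log 2 := by linarith [Real.log_two_gt_d9]
  set s₁ := max (max s₀ s₂) 4 with hs₁
  refine ⟨1 / (2 * D), by positivity, ?_, max 4 (Real.exp s₁), fun x hx => ?_⟩
  · rw [div_le_div_iff₀ (by positivity) (by norm_num)]
    linarith
  set c : ℝ := 1 / (2 * D) with hc
  have hc0 : 0 < c := by positivity
  set N := ⌊x⌋₊ with hN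
  have hx0 : 0 ≤ x := by linarith
  have hNx : (N : ℝ) ≤ x := Nat.floor_le hx0
  have hxN : x < N + 1 := Nat.lt_floor_add_one x
  have hN2 : 2 ≤ N := Nat.le_floor (by exact_mod_cast hx)
  have hlogx : 0 < Real.log x := Real.log_pos (by linarith)
  set Z := Real.exp (Real.log x ^ ε) with hZ
  have hfin : {n : ℕ | (n : ℝ) ≤ x ∧ Large Z n}.Finite := large_finite (fun _ => Z)
  set A := hfin.toFinset with hA
  have hAmem : ∀ n ∈ A, n ∈ Ioc 0 N ∧ Large Z n := by
    intro n hn
    rw [hA, Set.Finite.mem_toFinset] at hn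
    exact ⟨mem_Ioc.2 ⟨hn.2.pos, Nat.le_floor hn.1⟩, hn.2⟩
  have hAN := large_ncard_le hx0 (fun _ => Z)
  rw [Set.ncard_eq_toFinset_card _ hfin, ← hA] at hAN ⊢
  obtain ⟨s, hsl, hsu⟩ := exists_root (l := Nat.log 2 N) hD1
  have hN0 : N ≠ 0 := by omega
  have hNlow : 2 ^ (s ^ D) ≤ N :=
    (Nat.pow_le_pow_right (by norm_num) hsl).trans (Nat.pow_log_le_self 2 hN0)
  have hNup : N + 1 ≤ 2 ^ ((s + 1) ^ D) := by
    calc N + 1 ≤ 2 ^ (Nat.log 2 N + 1) := Nat.lt_pow_succ_log_self (by norm_num) N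
      _ ≤ 2 ^ ((s + 1) ^ D) := Nat.pow_le_pow_right (by norm_num) hsu
  have hlog : Real.log x ≤ ((s : ℝ) + 1) ^ D := by
    have h1 : x ≤ (2 : ℝ) ^ ((s + 1) ^ D) := by
      have h2 : ((N + 1 : ℕ) : ℝ) ≤ ((2 ^ ((s + 1) ^ D) : ℕ) : ℝ) := by exact_mod_cast hNup
      push_cast at h2
      linarith
    have h2 : Real.log x ≤ Real.log ((2 : ℝ) ^ ((s + 1) ^ D)) := Real.log_le_log (by linarith) h1
    rw [Real.log_pow] at h2
    have h4 : (((s + 1) ^ D : ℕ) : ℝ) * Real.log 2 ≤ ((s + 1) ^ D : ℕ) * 1 :=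
      mul_le_mul_of_nonneg_left hl2'.le (Nat.cast_nonneg _)
    push_cast at h2 h4
    linarith
  have hlogc : Real.log x ^ c ≤ Real.sqrt (s + 1) := by
    calc Real.log x ^ c ≤ (((s : ℝ) + 1) ^ D) ^ c := Real.rpow_le_rpow hlogx.le hlog hc0.le
      _ = ((s : ℝ) + 1) ^ ((D : ℝ) * c) := by
          rw [Real.rpow_mul (by positivity), Real.rpow_natCast]
      _ = Real.sqrt (s + 1) := by
          rw [Real.sqrt_eq_rpow, hc]
          congr 1
          field_simp
  rcases lt_or_ge s s₁ with hlt | hge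
  · have h1 : Real.log x ^ c ≤ s₁ := by
      refine hlogc.trans ?_
      rw [Real.sqrt_le_left (by positivity)]
      have h2 : (s : ℝ) + 1 ≤ s₁ := by exact_mod_cast hlt
      have h3 : (1 : ℝ) ≤ s₁ := by
        have : 4 ≤ s₁ := le_max_right _ _
        have h4 : (4 : ℝ) ≤ s₁ := by exact_mod_cast this
        linarith
      nlinarith
    calc (A.card : ℝ) ≤ x := hAN
      _ = Real.exp s₁ * x * Real.exp (-(s₁ : ℝ)) := by
          rw [mul_right_comm, ← Real.exp_add, add_neg_cancel, Real.exp_zero, one_mul]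
      _ ≤ Real.exp s₁ * x * Real.exp (-(Real.log x ^ c)) := by
          refine mul_le_mul_of_nonneg_left (Real.exp_le_exp.2 (by linarith)) (by positivity)
      _ ≤ max 4 (Real.exp s₁) * x * Real.exp (-(Real.log x ^ c)) := by
          refine mul_le_mul_of_nonneg_right ?_ (Real.exp_pos _).le
          exact mul_le_mul_of_nonneg_right (le_max_right _ _) hx0
  · have hs4 : 4 ≤ s := (le_max_right _ _).trans hge
    have hss₀ : s₀ ≤ s := ((le_max_left _ _).trans (le_max_left _ _)).trans hge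
    have hss₂ : s₂ ≤ s := ((le_max_right _ _).trans (le_max_left _ _)).trans hge
    have hsR : (4 : ℝ) ≤ s := by exact_mod_cast hs4
    have hs0 : (0 : ℝ) < s := by linarith
    have hlogs : Real.log x ^ c ≤ s * Real.log 2 := by
      refine hlogc.trans ?_
      rw [Real.sqrt_le_left (by positivity)]
      have h5 : 0.69 * (s : ℝ) ≤ s * Real.log 2 := by nlinarith
      have h6 : (0.69 * (s : ℝ)) ^ 2 ≤ (s * Real.log 2) ^ 2 := pow_le_pow_left₀ (by positivity) h5 2
      nlinarith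
    have hZlow : ((2 ^ (s ^ 12) : ℕ) : ℝ) ≤ Z := by
      have h1 : (s : ℝ) ^ D * Real.log 2 ≤ Real.log x := by
        have h2 : (2 : ℝ) ^ (s ^ D) ≤ x := by
          have h3 : ((2 ^ (s ^ D) : ℕ) : ℝ) ≤ N := by exact_mod_cast hNlow
          push_cast at h3
          linarith
        have h3 := Real.log_le_log (by positivity) h2
        rw [Real.log_pow] at h3
        push_cast at h3
        exact h3
      have h2 : (s : ℝ) ^ 12 * Real.log 2 ≤ Real.log x ^ ε := by
        calc (s : ℝ) ^ 12 * Real.log 2 ≤ (s : ℝ) ^ 12 * 1 :=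
              mul_le_mul_of_nonneg_left hl2'.le (by positivity)
          _ ≤ (s : ℝ) ^ 12 * (s * Real.log 2 ^ ε) := by
              refine mul_le_mul_of_nonneg_left ?_ (by positivity)
              have h3 : (Real.log 2) ^ (-ε) ≤ s := hs₂.trans (by exact_mod_cast hss₂)
              have h4 : (0 : ℝ) < Real.log 2 ^ ε := Real.rpow_pos_of_pos hl2 _
              calc (1 : ℝ) = (Real.log 2) ^ (-ε) * Real.log 2 ^ ε := by
                    rw [← Real.rpow_add hl2, neg_add_cancel, Real.rpow_zero]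
                _ ≤ s * Real.log 2 ^ ε := mul_le_mul_of_nonneg_right h3 h4.le
          _ = (s : ℝ) ^ (13 : ℝ) * Real.log 2 ^ ε := by
              rw [show (13 : ℝ) = ((13 : ℕ) : ℝ) by norm_num, Real.rpow_natCast]
              ring
          _ ≤ (s : ℝ) ^ ((D : ℝ) * ε) * Real.log 2 ^ ε := by
              refine mul_le_mul_of_nonneg_right ?_ (Real.rpow_nonneg hl2.le _)
              exact Real.rpow_le_rpow_of_exponent_le (by linarith) hDε
          _ = ((s : ℝ) ^ D * Real.log 2) ^ ε := by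
              rw [Real.mul_rpow (by positivity) hl2.le, Real.rpow_mul hs0.le, Real.rpow_natCast]
          _ ≤ Real.log x ^ ε := Real.rpow_le_rpow (by positivity) h1 hε.le
      calc ((2 ^ (s ^ 12) : ℕ) : ℝ) = Real.exp ((s : ℝ) ^ 12 * Real.log 2) := by
            rw [mul_comm, Real.exp_mul, Real.exp_log (by norm_num)]
            push_cast
            rw [← Real.rpow_natCast]
            push_cast
            rfl
        _ ≤ Z := Real.exp_le_exp.2 h2
    have hmain := hs₀ s hss₀ N (by omega) (by omega) A (by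
      intro n hn
      obtain ⟨h1, G, iG, iF, hcard, hgcd⟩ := hAmem n hn
      refine ⟨h1, G, iG, inferInstance, by rw [Nat.card_eq_fintype_card, hcard], ?_⟩
      have h2 : ((2 ^ (s ^ 12) : ℕ) : ℝ) <
          (Nat.gcd n (∑ H : {H : Subgroup G // H.Normal}, Nat.card H) : ℝ) :=
        lt_of_le_of_lt hZlow hgcd
      rw [sum_subtype_nat G] at h2
      exact_mod_cast h2)
    have h2s : (0 : ℝ) < (2 : ℝ) ^ s := by positivity
    have hmain' : (A.card : ℝ) * (2 : ℝ) ^ s ≤ 4 * N := by exact_mod_cast hmain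
    have h3 : (2 : ℝ) ^ s = Real.exp (s * Real.log 2) := by
      rw [mul_comm, Real.exp_mul, Real.exp_log (by norm_num), Real.rpow_natCast]
    calc (A.card : ℝ) ≤ 4 * N / (2 : ℝ) ^ s := by
          rw [le_div_iff₀ h2s]
          exact hmain'
      _ = 4 * N * Real.exp (-(s * Real.log 2)) := by
          rw [h3, Real.exp_neg]
          rfl
      _ ≤ 4 * x * Real.exp (-(Real.log x ^ c)) := by
          refine mul_le_mul ?_ (Real.exp_le_exp.2 (by linarith)) (Real.exp_pos _).le (by positivity)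
          linarith
      _ ≤ max 4 (Real.exp s₁) * x * Real.exp (-(Real.log x ^ c)) := by
          refine mul_le_mul_of_nonneg_right ?_ (Real.exp_pos _).le
          exact mul_le_mul_of_nonneg_right (le_max_left _ _) hx0

/-- the theorem with the bound in terms of the order -/
theorem all_n {ε : ℝ} (hε : 0 < ε) : ∃ c : ℝ, 0 < c ∧ ∃ C : ℝ, ∀ x : ℝ, 2 ≤ x →
      (Set.ncard {n : ℕ | (n : ℝ) ≤ x ∧ Large (Real.exp (Real.log n ^ ε)) n} : ℝ) ≤
        C * x * Real.exp (-(Real.log x ^ c)) := by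
  classical
  obtain ⟨c, hc0, hc2, C, hC⟩ := all_x (ε := ε / 2) (by positivity)
  refine ⟨c, hc0, max (C + 1) (Real.exp 4), fun x hx => ?_⟩
  have hx0 : 0 < x := by linarith
  have hlogx : 0 < Real.log x := Real.log_pos (by linarith)
  rcases lt_or_ge (Real.log x) 4 with hlt | hge
  · have h1 := large_ncard_le hx0.le (fun n : ℕ => Real.exp (Real.log n ^ ε))
    have h2 : Real.log x ^ c ≤ 4 := by
      calc Real.log x ^ c ≤ 4 ^ c := Real.rpow_le_rpow hlogx.le hlt.le hc0.le
        _ ≤ (4 : ℝ) ^ (1 : ℝ) := Real.rpow_le_rpow_of_exponent_le (by norm_num) (by linarith)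
        _ = 4 := Real.rpow_one 4
    calc (Set.ncard {n : ℕ | (n : ℝ) ≤ x ∧ Large (Real.exp (Real.log n ^ ε)) n} : ℝ) ≤ x := h1
      _ = Real.exp 4 * x * Real.exp (-4) := by
          rw [mul_right_comm, ← Real.exp_add, add_neg_cancel, Real.exp_zero, one_mul]
      _ ≤ Real.exp 4 * x * Real.exp (-(Real.log x ^ c)) := by
          refine mul_le_mul_of_nonneg_left (Real.exp_le_exp.2 (by linarith)) (by positivity)
      _ ≤ max (C + 1) (Real.exp 4) * x * Real.exp (-(Real.log x ^ c)) := by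
          refine mul_le_mul_of_nonneg_right ?_ (Real.exp_pos _).le
          exact mul_le_mul_of_nonneg_right (le_max_right _ _) hx0.le
  · have hsub : {n : ℕ | (n : ℝ) ≤ x ∧ Large (Real.exp (Real.log n ^ ε)) n} ⊆
        ((Ioc 0 ⌊Real.sqrt x⌋₊ : Finset ℕ) : Set ℕ) ∪
          {n : ℕ | (n : ℝ) ≤ x ∧ Large (Real.exp (Real.log x ^ (ε / 2))) n} := by
      intro n hn
      by_cases h : (n : ℝ) ≤ Real.sqrt x
      · left
        rw [mem_coe, mem_Ioc]
        exact ⟨hn.2.pos, Nat.le_floor h⟩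
      · right
        push Not at h
        refine ⟨hn.1, ?_⟩
        obtain ⟨G, iG, iF, hcard, hgcd⟩ := hn.2
        refine ⟨G, iG, iF, hcard, lt_of_le_of_lt (Real.exp_le_exp.2 ?_) hgcd⟩
        have h1 : Real.log x / 2 ≤ Real.log n := by
          have h2 := Real.log_le_log (Real.sqrt_pos.2 hx0) h.le
          rw [Real.log_sqrt hx0.le] at h2
          exact h2
        have h2 : Real.log x ^ (1 / 2 : ℝ) ≤ Real.log x / 2 := by
          rw [← Real.sqrt_eq_rpow, Real.sqrt_le_left (by positivity)]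
          nlinarith
        calc Real.log x ^ (ε / 2) = (Real.log x ^ (1 / 2 : ℝ)) ^ ε := by
              rw [← Real.rpow_mul hlogx.le]
              congr 1
              ring
          _ ≤ Real.log n ^ ε := Real.rpow_le_rpow (by positivity) (h2.trans h1) hε.le
    have hfin2 := large_finite (x := x) (fun _ => Real.exp (Real.log x ^ (ε / 2)))
    have h1 := Set.ncard_le_ncard hsub ((Finset.finite_toSet _).union hfin2)
    have h2 := h1.trans (Set.ncard_union_le _ _)
    rw [Set.ncard_coe_finset, Nat.card_Ioc, Nat.sub_zero] at h2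
    have h3 : (Set.ncard {n : ℕ | (n : ℝ) ≤ x ∧ Large (Real.exp (Real.log n ^ ε)) n} : ℝ) ≤
        Real.sqrt x + C * x * Real.exp (-(Real.log x ^ c)) := by
      have h4 : (Set.ncard {n : ℕ | (n : ℝ) ≤ x ∧ Large (Real.exp (Real.log n ^ ε)) n} : ℝ) ≤
        (⌊Real.sqrt x⌋₊ : ℝ) +
          (Set.ncard {n : ℕ | (n : ℝ) ≤ x ∧ Large (Real.exp (Real.log x ^ (ε / 2))) n} : ℝ) := by
        exact_mod_cast h2
      exact h4.trans (add_le_add (Nat.floor_le (Real.sqrt_nonneg _)) (hC x hx))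
    have h5 : Real.sqrt x ≤ 1 * x * Real.exp (-(Real.log x ^ c)) := by
      have h6 : Real.log x ^ c ≤ Real.log x / 2 := by
        calc Real.log x ^ c ≤ Real.log x ^ (1 / 2 : ℝ) :=
              Real.rpow_le_rpow_of_exponent_le (by linarith) hc2
          _ ≤ Real.log x / 2 := by
              rw [← Real.sqrt_eq_rpow, Real.sqrt_le_left (by positivity)]
              nlinarith
      have h7 : Real.sqrt x = x * Real.exp (-(Real.log x / 2)) := by
        have h8 : Real.sqrt x = Real.exp (Real.log x / 2) := by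
          rw [← Real.log_sqrt hx0.le, Real.exp_log (Real.sqrt_pos.2 hx0)]
        rw [h8]
        conv_rhs => rw [← Real.exp_log hx0]
        rw [← Real.exp_add, Real.exp_log hx0]
        congr 1
        ring
      rw [h7, one_mul]
      exact mul_le_mul_of_nonneg_left (Real.exp_le_exp.2 (by linarith)) hx0.le
    calc (Set.ncard {n : ℕ | (n : ℝ) ≤ x ∧ Large (Real.exp (Real.log n ^ ε)) n} : ℝ) ≤
        1 * x * Real.exp (-(Real.log x ^ c)) + C * x * Real.exp (-(Real.log x ^ c)) :=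
          h3.trans (add_le_add_left h5 _)
      _ = (C + 1) * x * Real.exp (-(Real.log x ^ c)) := by ring
      _ ≤ max (C + 1) (Real.exp 4) * x * Real.exp (-(Real.log x ^ c)) := by
          refine mul_le_mul_of_nonneg_right ?_ (Real.exp_pos _).le
          exact mul_le_mul_of_nonneg_right (le_max_left _ _) hx0.le

end Pool.Agent.Helper72.LGA
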