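import Pool.Agent.Helper72.LGA.Image

/-!
# The intersection of the supplements is solvable
-/

set_option autoImplicit false

namespace Pool.Agent.Helper72.LGA

open Subgroup Finset Pool.Agent.Helper72.LG Pool.Agent.Helper72.LGS Pool.Agent.Helper72.LGI
open scoped commutatorElement

section

variable {G : Type*} [Group G]

lemma comm_subgroupOf {H A B : Subgroup G} :
    ⁅A.subgroupOf H, B.subgroupOf H⁆ ≤ (⁅A, B⁆).subgroupOf H := by
  rw [Subgroup.commutator_le]
  intro x hx y hy
  rw [Subgroup.mem_subgroupOf]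
  exact Subgroup.commutator_mem_commutator hx hy

lemma der_subgroupOf {H A A' : Subgroup G} (h : A ⊓ H ≤ A') (k : ℕ) :
    der (A.subgroupOf H) k ≤ (der A' k).subgroupOf H := by
  induction k with
  | zero => exact fun x hx => h ⟨hx, x.2⟩
  | succ k ih => exact (Subgroup.commutator_mono ih ih).trans comm_subgroupOf

lemma subgroupOf_sup [Finite G] {Z S : Subgroup G → Subgroup G} (F : Finset (Subgroup G))
    (hF : ∀ L ∈ F, Supp L (Z L) (S L)) {H : Subgroup G} (hH : H = F.inf S) {N₁ N₂ : Subgroup G}
    (h₁ : N₁.Normal) (h₂ : N₂.Normal) :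
    (N₁ ⊔ N₂).subgroupOf H = N₁.subgroupOf H ⊔ N₂.subgroupOf H := by
  refine le_antisymm ?_ (sup_le (fun x hx => Subgroup.mem_sup_left hx)
    (fun x hx => Subgroup.mem_sup_right hx))
  intro x hx
  have h1 : (x : G) ∈ (N₁ ⊔ N₂) ⊓ F.inf S := ⟨hx, by rw [← hH]; exact x.2⟩
  rw [sup_inf F hF h₁ h₂, ← hH] at h1
  have h2 : N₁ ⊓ H ⊔ N₂ ⊓ H ≤ (N₁.subgroupOf H ⊔ N₂.subgroupOf H).map H.subtype := by
    rw [Subgroup.map_sup]
    refine sup_le_sup ?_ ?_
    · rintro y ⟨h3, h4⟩
      exact ⟨⟨y, h4⟩, h3, rfl⟩
    · rintro y ⟨h3, h4⟩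
      exact ⟨⟨y, h4⟩, h3, rfl⟩
  obtain ⟨y, hy, hyx⟩ := h2 h1
  have : y = x := Subtype.ext hyx
  exact this ▸ hy

/-- if every splitting is a member then the intersection of the supplements is solvable -/
theorem solvable_inf [Finite G] {Z S : Subgroup G → Subgroup G} (F : Finset (Subgroup G))
    (hF : ∀ L ∈ F, Supp L (Z L) (S L)) (hall : ∀ L Z' : Subgroup G, Spl L Z' → L ∈ F)
    {H : Subgroup G} (hH : H = F.inf S) : Group.IsSolvable H := by
  classical
  by_contra hns
  have htop : ¬ Sol ((⊤ : Subgroup G).subgroupOf H) := by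
    intro h
    apply hns
    refine isSolvable_of_sol ?_
    have : (⊤ : Subgroup G).subgroupOf H = ⊤ := Subgroup.top_subgroupOf H
    rw [this] at h
    exact h
  obtain ⟨N, hN1, hN2⟩ := Finset.exists_min_image
    ((nsg G).filter (fun N => ¬ Sol (N.subgroupOf H))) (fun N : Subgroup G => Nat.card N)
    ⟨⊤, mem_filter.2 ⟨mem_nsg.2 inferInstance, htop⟩⟩
  rw [mem_filter, mem_nsg] at hN1
  obtain ⟨hNn, hNs⟩ := hN1
  have hmin : ∀ N' : Subgroup G, N'.Normal → N' < N → Sol (N'.subgroupOf H) := by
    intro N' hN' hlt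
    by_contra hcon
    have h1 := hN2 N' (mem_filter.2 ⟨mem_nsg.2 hN', hcon⟩)
    have h2 : Nat.card N' < Nat.card N := Set.Finite.card_lt_card (Set.toFinite _) hlt
    exact absurd h2 (not_lt.2 h1)
  set T := (nsg G).filter (fun N' => N' < N) with hT
  have key : ∀ T' ⊆ T, (T'.sup id : Subgroup G).Normal ∧ Sol ((T'.sup id).subgroupOf H) := by
    intro T'
    induction T' using Finset.induction_on with
    | empty =>
      intro _
      rw [Finset.sup_empty]
      refine ⟨inferInstance, ?_⟩
      rw [Subgroup.bot_subgroupOf]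
      exact sol_bot
    | insert N' T' hN' ih =>
      intro hsub
      obtain ⟨h1, h2⟩ := ih ((subset_insert N' T').trans hsub)
      have h3 := hsub (mem_insert_self N' T')
      rw [hT, mem_filter, mem_nsg] at h3
      have h4 := h3.1
      rw [Finset.sup_insert, id]
      refine ⟨inferInstance, ?_⟩
      rw [subgroupOf_sup F hF hH h4 h1]
      exact Sol.sup (hmin N' h4 h3.2) h2
  obtain ⟨hDn, hDs⟩ := key T (Finset.Subset.refl T)
  set D : Subgroup G := T.sup id with hD
  have hDN : D ≤ N := Finset.sup_le fun N' hN' => (mem_filter.1 hN').2.le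
  have hmax : ∀ N' : Subgroup G, N'.Normal → N' ≤ N → N' ≠ N → N' ≤ D := by
    intro N' hN' hle hne
    exact Finset.le_sup (f := id) (mem_filter.2 ⟨mem_nsg.2 hN', lt_of_le_of_ne hle hne⟩)
  by_cases hab : ⁅N, N⁆ ≤ D
  · apply hNs
    refine Sol.of_der (k := 1) ?_ hDs
    exact comm_subgroupOf.trans fun x hx => hab hx
  · have hperf : ⁅N, N⁆ = N := by
      by_contra hne
      exact hab (hmax _ inferInstance comm_le hne)
    have hspl : Spl N (secC N D) := by
      refine ⟨hNn, inferInstance, fun N' hN' => ?_, ?_⟩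
      · by_cases h : N ≤ N'
        · exact Or.inl h
        · right
          have h1 : N' ⊓ N ≤ D := by
            refine hmax _ inferInstance inf_le_right fun e => h ?_
            exact inf_eq_right.1 e
          intro x hx
          rw [mem_secC]
          intro a ha
          refine h1 ⟨?_, ?_⟩
          · have e1 : x * a * x⁻¹ * a⁻¹ = x * (a * x⁻¹ * a⁻¹) := by group
            rw [e1]
            exact N'.mul_mem hx (hN'.conj_mem _ (N'.inv_mem hx) a)
          · exact N.mul_mem (hNn.conj_mem _ ha x) (N.inv_mem ha)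
      · rw [hperf]
        intro h1
        apply hab
        rw [Subgroup.commutator_le]
        intro x hx y hy
        rw [commutatorElement_def]
        exact mem_secC.1 (h1 hx) y hy
    have hNF := hall N _ hspl
    have hsupp := hF N hNF
    obtain ⟨k, hk⟩ := hsupp.sol
    apply hNs
    refine Sol.of_der (k := k) (B := D.subgroupOf H) ?_ hDs
    have hHS : H ≤ S N := by
      rw [hH]
      exact Finset.inf_le hNF
    have h1 : der (N.subgroupOf H) k ≤ (Z N).subgroupOf H := by
      refine (der_subgroupOf (A' := S N ⊓ N) ?_ k).trans fun x hx => hk hx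
      exact fun x hx => ⟨hHS hx.2, hx.1⟩
    have h2 : der (N.subgroupOf H) k ≤ N.subgroupOf H := der_le _ _
    have hZn := hsupp.spl.normal_right
    have h3 : Z N ⊓ N ≤ D := by
      refine hmax _ inferInstance inf_le_right fun e => hsupp.spl.not_le ?_
      exact inf_eq_right.1 e
    exact fun x hx => h3 ⟨h1 hx, h2 hx⟩

/-- the number of members -/
theorem card_members [Finite G] {Z S : Subgroup G → Subgroup G} (F : Finset (Subgroup G))
    (hF : ∀ L ∈ F, Supp L (Z L) (S L)) : 2 ^ F.card ≤ Nat.card G := by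
  classical
  have h1 := card_formula F hF (N := ⊤) inferInstance
  rw [Subgroup.card_top] at h1
  have h2 : F.filter (fun L => L ≤ ⊤) = F := Finset.filter_true_of_mem fun _ _ => le_top
  rw [h2] at h1
  rw [h1]
  have h3 : 2 ^ F.card ≤ ∏ L ∈ F, (S L).index := by
    rw [← Finset.prod_const]
    refine Finset.prod_le_prod' fun L hL => ?_
    have h4 : (S L).index ≠ 0 := Subgroup.index_ne_zero_of_finite
    have h5 : (S L).index ≠ 1 := by
      intro h6
      rw [Subgroup.index_eq_one] at h6
      obtain ⟨k, hk⟩ := (hF L hL).sol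
      rw [h6, top_inf_eq] at hk
      have h7 : ∀ j, der L j = L := by
        intro j
        induction j with
        | zero => rfl
        | succ j ih =>
          show ⁅der L j, der L j⁆ = L
          rw [ih, (hF L hL).spl.perfect]
      rw [h7] at hk
      exact (hF L hL).spl.not_le hk
    omega
  exact h3.trans (Nat.le_mul_of_pos_left _ Nat.card_pos)

end

end Pool.Agent.Helper72.LGA
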