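import Pool.Agent.Helper72.LGA.Defs
import Pool.Agent.Helper72.LGI.Part

/-!
# The embedding of the lattice of normal subgroups
-/

set_option autoImplicit false

namespace Pool.Agent.Helper72.LGA

open Subgroup Finset Pool.Agent.Helper72.LG Pool.Agent.Helper72.LGS Pool.Agent.Helper72.LGI
open scoped commutatorElement

section der

variable {G : Type*} [Group G]

lemma comm_le {A : Subgroup G} : ⁅A, A⁆ ≤ A := by
  rw [Subgroup.commutator_le]
  intro x hx y hy
  rw [commutatorElement_def]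
  exact A.mul_mem (A.mul_mem (A.mul_mem hx hy) (A.inv_mem hx)) (A.inv_mem hy)

lemma der_mono {A B : Subgroup G} (h : A ≤ B) (k : ℕ) : der A k ≤ der B k := by
  induction k with
  | zero => exact h
  | succ k ih => exact Subgroup.commutator_mono ih ih

lemma der_add (A : Subgroup G) (j k : ℕ) : der A (j + k) = der (der A j) k := by
  induction k with
  | zero => rfl
  | succ k ih =>
    show ⁅der A (j + k), der A (j + k)⁆ = ⁅der (der A j) k, der (der A j) k⁆
    rw [ih]

lemma der_le (A : Subgroup G) (k : ℕ) : der A k ≤ A := by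
  induction k with
  | zero => exact le_rfl
  | succ k ih => exact comm_le.trans ih

/-- a solvable subgroup -/
def Sol (A : Subgroup G) : Prop := ∃ k, der A k = ⊥

lemma Sol.of_der {A B : Subgroup G} {k : ℕ} (h : der A k ≤ B) (hB : Sol B) : Sol A := by
  obtain ⟨j, hj⟩ := hB
  refine ⟨k + j, le_bot_iff.1 ?_⟩
  rw [der_add, ← hj]
  exact der_mono h j

lemma der_sup_le {A B : Subgroup G} [B.Normal] (k : ℕ) : der (A ⊔ B) k ≤ der A k ⊔ B := by
  induction k with
  | zero => exact le_rfl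
  | succ k ih =>
    refine (Subgroup.commutator_mono ih ih).trans ?_
    show ⁅der A k ⊔ B, der A k ⊔ B⁆ ≤ ⁅der A k, der A k⁆ ⊔ B
    rw [Subgroup.commutator_le]
    intro x hx y hy
    obtain ⟨x', hx', ex⟩ := mem_sup_iff_mk.1 hx
    obtain ⟨y', hy', ey⟩ := mem_sup_iff_mk.1 hy
    rw [mem_sup_iff_mk]
    refine ⟨⁅x', y'⁆, Subgroup.commutator_mem_commutator hx' hy', ?_⟩
    rw [map_commutatorElement, map_commutatorElement, ex, ey]

lemma Sol.sup {A B : Subgroup G} [B.Normal] (hA : Sol A) (hB : Sol B) : Sol (A ⊔ B) := by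
  obtain ⟨k, hk⟩ := hA
  refine Sol.of_der (k := k) ?_ hB
  refine (der_sup_le k).trans ?_
  rw [hk, bot_sup_eq]

lemma Sol.mono {A B : Subgroup G} (h : A ≤ B) (hB : Sol B) : Sol A :=
  Sol.of_der (k := 0) h hB

lemma sol_bot : Sol (⊥ : Subgroup G) := ⟨0, rfl⟩

lemma isSolvable_of_sol (h : Sol (⊤ : Subgroup G)) : Group.IsSolvable G := by
  obtain ⟨k, hk⟩ := h
  refine ⟨k, ?_⟩
  have : ∀ j, derivedSeries G j = der (⊤ : Subgroup G) j := by
    intro j
    induction j with
    | zero => rfl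
    | succ j ih =>
      show ⁅derivedSeries G j, derivedSeries G j⁆ = ⁅der ⊤ j, der ⊤ j⁆
      rw [ih]
  rw [this, hk]

end der

section

variable {G : Type*} [Group G]

lemma Spl.perfect {L Z : Subgroup G} (h : Spl L Z) : ⁅L, L⁆ = L := by
  have hL := h.normal_left
  refine le_antisymm comm_le ?_
  rcases h.dich ⁅L, L⁆ inferInstance with h1 | h1
  · exact h1
  · exact absurd h1 h.nonab

lemma Spl.not_le {L Z : Subgroup G} (h : Spl L Z) : ¬ L ≤ Z := by
  intro h1
  apply h.nonab
  rw [h.perfect]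
  exact h1

lemma Spl.le_iff_sup {L Z N₁ N₂ : Subgroup G} (h : Spl L Z) (h₁ : N₁.Normal) (h₂ : N₂.Normal) :
    L ≤ N₁ ⊔ N₂ ↔ L ≤ N₁ ∨ L ≤ N₂ := by
  constructor
  · intro hle
    rcases h.dich N₁ h₁ with h3 | h3
    · exact Or.inl h3
    · rcases h.dich N₂ h₂ with h4 | h4
      · exact Or.inr h4
      · exact absurd (hle.trans (sup_le h3 h4)) h.not_le
  · rintro (h3 | h3)
    · exact h3.trans le_sup_left
    · exact h3.trans le_sup_right

/-- a member which does not contain another one lies in its supplement -/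
lemma Supp.le_of_not {L Z S N : Subgroup G} (h : Supp L Z S) (hN : N.Normal) (hn : ¬ L ≤ N) : N ≤ S :=
  ((h.spl.dich N hN).resolve_left hn).trans h.le

lemma exists_min_mem {F : Finset (Subgroup G)} (hF : F.Nonempty) :
    ∃ L ∈ F, ∀ L' ∈ F, L' ≤ L → L' = L := by
  obtain ⟨L, hL⟩ := F.exists_minimal hF
  exact ⟨L, hL.prop, fun L' hL' h => le_antisymm h (hL.le_of_le hL' h)⟩

open scoped Classical in
/-- adjusting an element by a product of elements of the members -/
lemma adjust {Z S : Subgroup G → Subgroup G} (F : Finset (Subgroup G))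
    (hF : ∀ L ∈ F, Supp L (Z L) (S L)) (x : G) : ∃ e ∈ F.sup id, e * x ∈ F.inf S := by
  induction F using Finset.strongInduction with
  | H F ih =>
    rcases F.eq_empty_or_nonempty with h0 | h0
    · subst h0
      exact ⟨1, by simp, by simp⟩
    · obtain ⟨L₀, hL₀, hmin⟩ := exists_min_mem h0
      have hsub : F.erase L₀ ⊂ F := Finset.erase_ssubset hL₀
      obtain ⟨e, he, hex⟩ := ih (F.erase L₀) hsub fun L hL => hF L (mem_of_mem_erase hL)
      have hn := (hF L₀ hL₀).spl.normal_left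
      have h1 : e * x ∈ L₀ ⊔ S L₀ := by
        rw [sup_comm, (hF L₀ hL₀).sup]
        exact Subgroup.mem_top _
      obtain ⟨y, hy, z, hz, hyz⟩ := Subgroup.mem_sup_of_normal_left.1 h1
      have hle : L₀ ≤ (F.erase L₀).inf S := by
        refine Finset.le_inf fun L hL => ?_
        rw [mem_erase] at hL
        exact (hF L hL.2).le_of_not hn fun h => hL.1 (hmin L hL.2 h)
      have hzz : y⁻¹ * (e * x) = z := by rw [← hyz]; group
      refine ⟨y⁻¹ * e, ?_, ?_⟩
      · refine Subgroup.mul_mem _ (Subgroup.inv_mem _ ?_) ?_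
        · exact (Finset.le_sup (f := id) hL₀) hy
        · exact (show (F.erase L₀).sup id ≤ F.sup id from
          Finset.sup_mono (Finset.erase_subset L₀ F)) he
      · rw [← Finset.insert_erase hL₀, Finset.inf_insert, mul_assoc]
        refine ⟨?_, ?_⟩
        · rw [hzz]
          exact hz
        · exact Subgroup.mul_mem _ (Subgroup.inv_mem _ (hle hy)) hex

lemma card_eq_inf [Finite G] (S A : Subgroup G) :
    Nat.card A = Nat.card (A ⊓ S : Subgroup G) * S.relIndex A := by
  have h1 := Subgroup.relIndex_mul_relIndex (⊥ : Subgroup G) (A ⊓ S) A bot_le inf_le_left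
  rw [Subgroup.relIndex_bot_left, Subgroup.relIndex_bot_left, Subgroup.inf_relIndex_left] at h1
  exact h1.symm

lemma relIndex_eq_index [Finite G] {L₀ S A : Subgroup G} [L₀.Normal] (hS : S ⊔ L₀ = ⊤) (hA : L₀ ≤ A) :
    S.relIndex A = S.index := by
  have h1 : S.relIndex L₀ = S.index := by
    have e1 := card_eq_inf S L₀
    have e2 := card_eq_inf L₀ S
    have e3 : L₀.relIndex S = L₀.index := by
      rw [← Subgroup.relIndex_sup_right, hS, Subgroup.relIndex_top_right]
    rw [e3, inf_comm] at e2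
    have e4 := S.card_mul_index
    have e5 := L₀.card_mul_index
    have e6 : 0 < L₀.index := Nat.pos_of_ne_zero Subgroup.index_ne_zero_of_finite
    have e7 : 0 < Nat.card (L₀ ⊓ S : Subgroup G) := Nat.card_pos
    have e8 : Nat.card (L₀ ⊓ S : Subgroup G) * L₀.index * S.relIndex L₀ =
        Nat.card (L₀ ⊓ S : Subgroup G) * L₀.index * S.index := by
      calc Nat.card (L₀ ⊓ S : Subgroup G) * L₀.index * S.relIndex L₀ =
          (Nat.card (L₀ ⊓ S : Subgroup G) * S.relIndex L₀) * L₀.index := by ring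
        _ = Nat.card L₀ * L₀.index := by rw [← e1]
        _ = Nat.card S * S.index := by rw [e4, e5]
        _ = _ := by rw [e2]
    exact Nat.eq_of_mul_eq_mul_left (Nat.mul_pos e7 e6) e8
  refine le_antisymm ?_ ?_
  · rw [← Subgroup.relIndex_top_right S]
    exact Subgroup.relIndex_le_of_le_right le_top (by
      rw [Subgroup.relIndex_top_right]
      exact Subgroup.index_ne_zero_of_finite)
  · rw [← h1]
    exact Subgroup.relIndex_le_of_le_right hA (Subgroup.index_ne_zero_of_finite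
      (H := S.subgroupOf A))

open scoped Classical in
/-- the order of a normal subgroup -/
lemma card_formula [Finite G] {Z S : Subgroup G → Subgroup G} (F : Finset (Subgroup G))
    (hF : ∀ L ∈ F, Supp L (Z L) (S L)) {N : Subgroup G} (hN : N.Normal) :
    Nat.card N = Nat.card (N ⊓ F.inf S : Subgroup G) * ∏ L ∈ F with L ≤ N, (S L).index := by
  induction F using Finset.strongInduction with
  | H F ih =>
    rcases F.eq_empty_or_nonempty with h0 | h0
    · subst h0
      simp
    · obtain ⟨L₀, hL₀, hmin⟩ := exists_min_mem h0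
      have hsub : F.erase L₀ ⊂ F := Finset.erase_ssubset hL₀
      have hih := ih (F.erase L₀) hsub fun L hL => hF L (mem_of_mem_erase hL)
      have hn := (hF L₀ hL₀).spl.normal_left
      have hle : L₀ ≤ (F.erase L₀).inf S := by
        refine Finset.le_inf fun L hL => ?_
        rw [mem_erase] at hL
        exact (hF L hL.2).le_of_not hn fun h => hL.1 (hmin L hL.2 h)
      set A := N ⊓ (F.erase L₀).inf S with hA
      have hinf : N ⊓ F.inf S = A ⊓ S L₀ := by
        conv_lhs => rw [← Finset.insert_erase hL₀, Finset.inf_insert]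
        rw [hA, inf_assoc, inf_comm (S L₀)]
      rw [hinf, hih, card_eq_inf (S L₀) A]
      conv_rhs => rw [← Finset.insert_erase hL₀]
      rw [Finset.filter_insert]
      by_cases h : L₀ ≤ N
      · rw [if_pos h, prod_insert (by simp), relIndex_eq_index (hF L₀ hL₀).sup (le_inf h hle)]
        ring
      · rw [if_neg h]
        have h1 : A ≤ S L₀ := inf_le_left.trans ((hF L₀ hL₀).le_of_not hN h)
        rw [Subgroup.relIndex_eq_one.2 h1, mul_one]

lemma card_sup_mul_inf [Finite G] (A B : Subgroup G) :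
    Nat.card A * Nat.card B ≤ Nat.card (A ⊔ B : Subgroup G) * Nat.card (A ⊓ B : Subgroup G) := by
  have h1 := card_eq_inf B A
  have h2 := card_eq_inf B (A ⊔ B)
  rw [inf_eq_right.2 (le_sup_right : B ≤ A ⊔ B)] at h2
  have h3 : B.relIndex A ≤ B.relIndex (A ⊔ B) :=
    Subgroup.relIndex_le_of_le_right le_sup_left (Subgroup.index_ne_zero_of_finite
      (H := B.subgroupOf (A ⊔ B)))
  calc Nat.card A * Nat.card B = Nat.card B * B.relIndex A * Nat.card (A ⊓ B : Subgroup G) := by
        rw [h1]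
        ring
    _ ≤ Nat.card B * B.relIndex (A ⊔ B) * Nat.card (A ⊓ B : Subgroup G) :=
        Nat.mul_le_mul_right _ (Nat.mul_le_mul_left _ h3)
    _ = _ := by rw [← h2]

lemma card_sup_mul_inf' [Finite G] (A B : Subgroup G) [B.Normal] :
    Nat.card A * Nat.card B = Nat.card (A ⊔ B : Subgroup G) * Nat.card (A ⊓ B : Subgroup G) := by
  have h1 := card_eq_inf B A
  have h2 := card_eq_inf B (A ⊔ B)
  rw [inf_eq_right.2 (le_sup_right : B ≤ A ⊔ B), Subgroup.relIndex_sup_right] at h2
  rw [h2, h1]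
  ring

open scoped Classical in
/-- the embedding preserves joins -/
lemma sup_inf [Finite G] {Z S : Subgroup G → Subgroup G} (F : Finset (Subgroup G))
    (hF : ∀ L ∈ F, Supp L (Z L) (S L)) {N₁ N₂ : Subgroup G} (h₁ : N₁.Normal) (h₂ : N₂.Normal) :
    (N₁ ⊔ N₂) ⊓ F.inf S = (N₁ ⊓ F.inf S) ⊔ (N₂ ⊓ F.inf S) := by
  set H := F.inf S with hH
  set κ : Subgroup G → ℕ := fun N => ∏ L ∈ F with L ≤ N, (S L).index with hκ
  have hκ0 : ∀ N, 0 < κ N := fun N =>
    prod_pos fun L _ => Nat.pos_of_ne_zero Subgroup.index_ne_zero_of_finite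
  have hκs : κ N₁ * κ N₂ = κ (N₁ ⊔ N₂) * κ (N₁ ⊓ N₂) := by
    have e1 : F.filter (fun L => L ≤ N₁ ⊔ N₂) = F.filter (fun L => L ≤ N₁) ∪ F.filter (fun L => L ≤ N₂) := by
      rw [← Finset.filter_or]
      refine Finset.filter_congr fun L hL => ?_
      exact (hF L hL).spl.le_iff_sup h₁ h₂
    have e2 : F.filter (fun L => L ≤ N₁ ⊓ N₂) = F.filter (fun L => L ≤ N₁) ∩ F.filter (fun L => L ≤ N₂) := by
      rw [← Finset.filter_and]
      refine Finset.filter_congr fun L _ => ?_
      exact le_inf_iff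
    simp only [hκ]
    rw [e1, e2, Finset.prod_union_inter]
  have c1 := card_formula F hF h₁
  have c2 := card_formula F hF h₂
  have c3 := card_formula F hF (N := N₁ ⊔ N₂) inferInstance
  have c4 := card_formula F hF (N := N₁ ⊓ N₂) inferInstance
  have hc := card_sup_mul_inf' N₁ N₂
  have hi := card_sup_mul_inf (N₁ ⊓ H) (N₂ ⊓ H)
  have hinf : (N₁ ⊓ H) ⊓ (N₂ ⊓ H) = (N₁ ⊓ N₂) ⊓ H := by
    rw [inf_inf_inf_comm, inf_idem]
  rw [hinf] at hi
  have hle : (N₁ ⊓ H) ⊔ (N₂ ⊓ H) ≤ (N₁ ⊔ N₂) ⊓ H :=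
    sup_le (inf_le_inf_right _ le_sup_left) (inf_le_inf_right _ le_sup_right)
  refine (Subgroup.eq_of_le_of_card_ge hle ?_).symm
  rw [← hH] at c1 c2 c3 c4
  change Nat.card N₁ = Nat.card (N₁ ⊓ H : Subgroup G) * κ N₁ at c1
  change Nat.card N₂ = Nat.card (N₂ ⊓ H : Subgroup G) * κ N₂ at c2
  change Nat.card (N₁ ⊔ N₂ : Subgroup G) = Nat.card ((N₁ ⊔ N₂) ⊓ H : Subgroup G) * κ (N₁ ⊔ N₂) at c3
  change Nat.card (N₁ ⊓ N₂ : Subgroup G) = Nat.card ((N₁ ⊓ N₂) ⊓ H : Subgroup G) * κ (N₁ ⊓ N₂) at c4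
  have hpos : 0 < κ (N₁ ⊔ N₂) * κ (N₁ ⊓ N₂) * Nat.card ((N₁ ⊓ N₂) ⊓ H : Subgroup G) :=
    Nat.mul_pos (Nat.mul_pos (hκ0 _) (hκ0 _)) Nat.card_pos
  refine Nat.le_of_mul_le_mul_left ?_ hpos
  calc κ (N₁ ⊔ N₂) * κ (N₁ ⊓ N₂) * Nat.card ((N₁ ⊓ N₂) ⊓ H : Subgroup G) *
      Nat.card ((N₁ ⊔ N₂) ⊓ H : Subgroup G) =
      (Nat.card ((N₁ ⊔ N₂) ⊓ H : Subgroup G) * κ (N₁ ⊔ N₂)) *
        (Nat.card ((N₁ ⊓ N₂) ⊓ H : Subgroup G) * κ (N₁ ⊓ N₂)) := by ring
    _ = Nat.card N₁ * Nat.card N₂ := by rw [← c3, ← c4, hc]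
    _ = (Nat.card (N₁ ⊓ H : Subgroup G) * Nat.card (N₂ ⊓ H : Subgroup G)) * (κ N₁ * κ N₂) := by
        rw [c1, c2]
        ring
    _ ≤ (Nat.card ((N₁ ⊓ H) ⊔ (N₂ ⊓ H) : Subgroup G) * Nat.card ((N₁ ⊓ N₂) ⊓ H : Subgroup G)) *
        (κ N₁ * κ N₂) := Nat.mul_le_mul_right _ hi
    _ = _ := by
        rw [hκs]
        ring

lemma sup_inf_finset [Finite G] {Z S : Subgroup G → Subgroup G} (F : Finset (Subgroup G))
    (hF : ∀ L ∈ F, Supp L (Z L) (S L)) (T : Finset (Subgroup G)) (hT : ∀ N ∈ T, N.Normal) :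
    (T.sup id : Subgroup G).Normal ∧ (T.sup id) ⊓ F.inf S = T.sup (fun N => N ⊓ F.inf S) := by
  classical
  induction T using Finset.induction_on with
  | empty => simp
  | insert N T hN ih =>
    obtain ⟨h1, h2⟩ := ih fun N hN => hT N (mem_insert_of_mem hN)
    have h3 := hT N (mem_insert_self N T)
    rw [Finset.sup_insert, Finset.sup_insert, id]
    exact ⟨inferInstance, by rw [sup_inf F hF h3 h1, h2]⟩

open scoped Classical in
/-- the intersection with a member is not in the other part -/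
lemma not_inf_le [Finite G] {Z S : Subgroup G → Subgroup G} (F : Finset (Subgroup G))
    (hF : ∀ L ∈ F, Supp L (Z L) (S L)) {L : Subgroup G} (hL : L ∈ F) : ¬ L ⊓ F.inf S ≤ Z L := by
  intro hcon
  obtain ⟨t, ht, htZ⟩ := SetLike.not_le_iff_exists.1 (hF L hL).not_le
  have hLn := (hF L hL).spl.normal_left
  set F' := F.filter (fun L' => L' < L) with hF'
  have hF'' : ∀ L' ∈ F', Supp L' (Z L') (S L') := fun L' h => hF L' (mem_filter.1 h).1
  obtain ⟨e, he, het⟩ := adjust F' hF'' t
  have h1 : F'.sup id ≤ L ⊓ Z L := by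
    refine Finset.sup_le fun L' hL' => ?_
    rw [hF', mem_filter] at hL'
    refine le_inf hL'.2.le ?_
    exact ((hF L hL).spl.dich L' (hF L' hL'.1).spl.normal_left).resolve_left
      (fun h => absurd (lt_of_le_of_lt h hL'.2) (lt_irrefl _))
  have he1 := h1 he
  have h2 : e * t ∈ F.inf S := by
    have h3 : ∀ L' ∈ F, e * t ∈ S L' := by
      intro L' hL'
      by_cases hle : L' ≤ L
      · rcases eq_or_lt_of_le hle with h | h
        · rw [h]
          exact Subgroup.mul_mem _ ((hF L hL).le he1.2) ht.1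
        · exact (Finset.inf_le (f := S) (mem_filter.2 ⟨hL', h⟩ : L' ∈ F')) het
      · exact (hF L' hL').le_of_not hLn hle (Subgroup.mul_mem _ he1.1 ht.2)
    have h4 : Subgroup.zpowers (e * t) ≤ F.inf S :=
      Finset.le_inf fun L' hL' => by
        rw [Subgroup.zpowers_le]
        exact h3 L' hL'
    exact h4 (Subgroup.mem_zpowers _)
  have h5 : e * t ∈ Z L := hcon ⟨Subgroup.mul_mem _ he1.1 ht.2, h2⟩
  apply htZ
  have h6 : e⁻¹ * (e * t) ∈ Z L := Subgroup.mul_mem _ (Subgroup.inv_mem _ he1.2) h5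
  simpa using h6

/-- members below a normal subgroup are seen in the intersection -/
lemma le_iff_inf [Finite G] {Z S : Subgroup G → Subgroup G} (F : Finset (Subgroup G))
    (hF : ∀ L ∈ F, Supp L (Z L) (S L)) {L N : Subgroup G} (hL : L ∈ F) (hN : N.Normal) :
    L ≤ N ↔ L ⊓ F.inf S ≤ N ⊓ F.inf S := by
  constructor
  · exact fun h => inf_le_inf_right _ h
  · intro h
    rcases (hF L hL).spl.dich N hN with h1 | h1
    · exact h1
    · exact absurd (h.trans (inf_le_left.trans h1)) (not_inf_le F hF hL)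

open scoped Classical in
/-- the embedding is injective -/
lemma inf_injective [Finite G] {Z S : Subgroup G → Subgroup G} (F : Finset (Subgroup G))
    (hF : ∀ L ∈ F, Supp L (Z L) (S L)) {N₁ N₂ : Subgroup G} (h₁ : N₁.Normal) (h₂ : N₂.Normal) :
    N₁ ≤ N₂ ↔ N₁ ⊓ F.inf S ≤ N₂ ⊓ F.inf S := by
  constructor
  · exact fun h => inf_le_inf_right _ h
  · intro h
    have h3 : (N₁ ⊓ N₂) ⊓ F.inf S = N₁ ⊓ F.inf S := by
      rw [inf_assoc]
      refine le_antisymm (inf_le_inf_left _ inf_le_right) (le_inf inf_le_left h)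
    have h4 : ∀ L ∈ F, L ≤ N₁ ⊓ N₂ ↔ L ≤ N₁ := by
      intro L hL
      rw [le_iff_inf F hF hL (N := N₁ ⊓ N₂) inferInstance, h3, ← le_iff_inf F hF hL h₁]
    have c1 := card_formula F hF h₁
    have c2 := card_formula F hF (N := N₁ ⊓ N₂) inferInstance
    rw [h3, Finset.filter_congr h4] at c2
    have h5 : N₁ ⊓ N₂ = N₁ := Subgroup.eq_of_le_of_card_ge inf_le_left (by rw [c1, c2])
    exact inf_eq_left.1 h5

open scoped Classical in
/-- the generation of the group -/
lemma generation {Z S : Subgroup G → Subgroup G} (F : Finset (Subgroup G))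
    (hF : ∀ L ∈ F, Supp L (Z L) (S L)) {K : Subgroup G} (hH : F.inf S ≤ K)
    (hK : ∀ L ∈ F, L ⊓ (F.erase L).inf S ≤ K) : K = ⊤ := by
  have key : ∀ (k : ℕ) (L : Subgroup G), L ∈ F → (F.filter (fun L' => L' < L)).card ≤ k → L ≤ K := by
    intro k
    induction k using Nat.strong_induction_on with
    | _ k ih =>
      intro L hL hk l hl
      set F' := F.filter (fun L' => L' < L) with hF'
      have hF'' : ∀ L' ∈ F', Supp L' (Z L') (S L') := fun L' h => hF L' (mem_filter.1 h).1
      obtain ⟨e, he, hel⟩ := adjust F' hF'' l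
      have hLn := (hF L hL).spl.normal_left
      have h1 : F'.sup id ≤ K := by
        refine Finset.sup_le fun L' hL' => ?_
        have hL'' := mem_filter.1 hL'
        have hlt : (F.filter (fun L'' => L'' < L')).card < F'.card := by
          refine Finset.card_lt_card ?_
          rw [Finset.ssubset_iff_of_subset]
          · exact ⟨L', hL', by simp⟩
          · intro L'' h
            rw [mem_filter] at h ⊢
            exact ⟨h.1, h.2.trans hL''.2⟩
        exact ih _ (lt_of_lt_of_le hlt hk) L' hL''.1 le_rfl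
      have h2 : F'.sup id ≤ L := Finset.sup_le fun L' hL' => (mem_filter.1 hL').2.le
      have h3 : e * l ∈ L ⊓ (F.erase L).inf S := by
        refine ⟨Subgroup.mul_mem _ (h2 he) hl, ?_⟩
        have h4 : Subgroup.zpowers (e * l) ≤ (F.erase L).inf S := by
          refine Finset.le_inf fun L' hL' => ?_
          rw [Subgroup.zpowers_le]
          rw [mem_erase] at hL'
          by_cases hle : L' ≤ L
          · exact (Finset.inf_le (f := S)
              (mem_filter.2 ⟨hL'.2, lt_of_le_of_ne hle hL'.1⟩ : L' ∈ F')) hel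
          · exact (hF L' hL'.2).le_of_not hLn hle (Subgroup.mul_mem _ (h2 he) hl)
        exact h4 (Subgroup.mem_zpowers _)
      have h5 := hK L hL h3
      have h6 : e⁻¹ * (e * l) ∈ K := K.mul_mem (K.inv_mem (h1 he)) h5
      simpa using h6
  rw [eq_top_iff]
  intro x _
  obtain ⟨e, he, hex⟩ := adjust F hF x
  have h1 : F.sup id ≤ K := Finset.sup_le fun L hL => key _ L hL le_rfl
  have h6 : e⁻¹ * (e * x) ∈ K := K.mul_mem (K.inv_mem (h1 he)) (hH hex)
  simpa using h6

end

end Pool.Agent.Helper72.LGA
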