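import Pool.Agent.Helper72.LGA.Solv
import Pool.Agent.Helper65.LGA.Supp
import Pool.Agent.Helper65.LGS.Ser

/-!
# The value as the value of a solvable group with data
-/

set_option autoImplicit false

namespace Pool.Agent.Helper72.LGA

open Subgroup Finset Pool.Agent.Helper72.LG Pool.Agent.Helper72.LGS Pool.Agent.Helper72.LGI

lemma exists_pad {α β : Type*} [DecidableEq α] (T : Finset α) {R : ℕ} (hR : T.card ≤ R) (u : α → β)
    (d : β) : ∃ v : Fin R → β, (∀ p : β → Prop, p d → (∀ a ∈ T, p (u a)) → ∀ j, p (v j)) ∧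
      (∀ p : β → Prop, (∀ j, p (v j)) → ∀ a ∈ T, p (u a)) ∧
      (∀ w : β → ℕ, w d = 1 → ∏ j, w (v j) = ∏ a ∈ T, w (u a)) := by
  induction T using Finset.induction_on generalizing R with
  | empty =>
    exact ⟨fun _ => d, fun p hp _ _ => hp, fun p _ a ha => absurd ha (Finset.notMem_empty a),
      fun w hw => by simp [hw]⟩
  | insert a T ha ih =>
    rw [card_insert_of_notMem ha] at hR
    obtain ⟨R', rfl⟩ : ∃ R', R = R' + 1 := ⟨R - 1, by omega⟩
    obtain ⟨v, hv1, hv2, hv3⟩ := ih (R := R') (by omega)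
    refine ⟨Fin.cons (u a) v, fun p hp h j => ?_, fun p h b hb => ?_, fun w hw => ?_⟩
    · refine Fin.cases ?_ (fun j => ?_) j
      · exact h a (mem_insert_self a T)
      · exact hv1 p hp (fun b hb => h b (mem_insert_of_mem hb)) j
    · rw [mem_insert] at hb
      rcases hb with hb | hb
      · have := h 0
        rw [Fin.cons_zero] at this
        rw [hb]
        exact this
      · exact hv2 p (fun j => by simpa using h j.succ) b hb
    · rw [Fin.prod_univ_succ, prod_insert ha, ← hv3 w hw]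
      simp only [Fin.cons_zero, Fin.cons_succ]

lemma card_subgroupOf {G : Type*} [Group G] (N H : Subgroup G) :
    Nat.card (N.subgroupOf H) = Nat.card (N ⊓ H : Subgroup G) := by
  rw [← Subgroup.subgroupOf_map_subtype]
  exact Nat.card_congr ((N.subgroupOf H).equivMapOfInjective _ H.subtype_injective).toEquiv

theorem exists_VA {X : Type} [Group X] [Finite X] {M Kb : ℕ} (hM : 1 ≤ M) (hX : Nat.card X ≤ Kb)
    (S : Finset ℕ) (K : ℕ → Subgroup X) (hK : ∀ p ∈ S, (K p).Normal) (L₀ : Subgroup X)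
    (hL₀ : L₀.Normal) : VV X S K L₀ ∈ VSA M Kb (Nat.log 2 Kb) S := by
  classical
  set h := Nat.log 2 Kb with hh
  have hKb : 1 ≤ Kb := le_trans Nat.card_pos hX
  have hZ : ∀ L : Subgroup X, ∃ Z S' : Subgroup X, (∃ Z', Spl L Z') → Supp L Z S' := by
    intro L
    by_cases hL : ∃ Z', Spl L Z'
    · obtain ⟨Z', hZ'⟩ := hL
      obtain ⟨S', hS'⟩ := exists_supp hZ'
      exact ⟨Z', S', fun _ => hS'⟩
    · exact ⟨⊥, ⊥, fun h => absurd h hL⟩
  choose Z Sf hZS using hZ
  have hFt : Fintype (Subgroup X) := Fintype.ofFinite _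
  set F : Finset (Subgroup X) := univ.filter (fun L => ∃ Z', Spl L Z') with hFdef
  have hF : ∀ L ∈ F, Supp L (Z L) (Sf L) := fun L hL => hZS L (mem_filter.1 hL).2
  have hall : ∀ L Z' : Subgroup X, Spl L Z' → L ∈ F := fun L Z' hL =>
    mem_filter.2 ⟨mem_univ _, Z', hL⟩
  have hg : ∀ L : Subgroup X, ∃ g : Fin h → X, closure (Set.range g) = L ⊓ (F.erase L).inf Sf := by
    intro L
    refine _root_.LG.exists_gen h _ ?_
    exact ((Subgroup.card_le_card_group _).trans hX).trans_lt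
      (Nat.lt_pow_succ_log_self (by norm_num) Kb)
  choose g hg using hg
  obtain ⟨H, hH⟩ : ∃ H : Subgroup X, H = F.inf Sf := ⟨_, rfl⟩
  have hsol : Group.IsSolvable H := solvable_inf F hF hall hH
  have hFc : F.card ≤ h := by
    refine Nat.le_log_of_pow_le (by norm_num) ?_
    exact (card_members F hF).trans hX
  obtain ⟨v, hv1, hv2, hv3⟩ := exists_pad F hFc
    (fun L => datL H L (Z L) (Sf L) (g L)) ((⊥, ⊥, fun _ => ⊥, 1) : Dat H h)
  refine ⟨H, inferInstance, inferInstance, v, fun p => (K p).subgroupOf H, L₀.subgroupOf H,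
    (Subgroup.card_le_card_group _).trans hX, ser_of_solvable hM, ?_, ?_⟩
  · refine hv1 (fun b => b.2.2.2 ≤ Kb) hKb fun L _ => ?_
    show (Sf L).index ≤ Kb
    refine le_trans ?_ hX
    rw [← (Sf L).card_mul_index]
    exact Nat.le_mul_of_pos_left _ Nat.card_pos
  · have hle : ∀ N₁ N₂ : Subgroup X, N₁.Normal → N₂.Normal →
        (N₁ ≤ N₂ ↔ N₁.subgroupOf H ≤ N₂.subgroupOf H) := by
      intro N₁ N₂ h₁ h₂
      rw [subgroupOf_le_iff, hH]
      exact inf_injective F hF h₁ h₂
    unfold VV VA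
    refine Finset.sum_bij (fun N _ => N.subgroupOf H) ?_ ?_ ?_ ?_
    · intro N hN
      rw [mem_filter, mem_nsg] at hN ⊢
      obtain ⟨hNn, hNL⟩ := hN
      refine ⟨Subgroup.Normal.subgroupOf hNn H, (hle N L₀ hNn hL₀).1 hNL, ?_⟩
      refine hv1 (fun b => ok (N.subgroupOf H) b) (Or.inl bot_le) fun L hL => ?_
      exact ok_of_normal (hF L hL) _ hNn
    · intro N₁ h₁ N₂ h₂ heq
      rw [mem_filter, mem_nsg] at h₁ h₂
      exact le_antisymm ((hle N₁ N₂ h₁.1 h₂.1).2 (le_of_eq heq)) ((hle N₂ N₁ h₂.1 h₁.1).2 (le_of_eq heq.symm))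
    · intro M' hM'
      rw [mem_filter, mem_nsg] at hM'
      obtain ⟨hMn, hML, hMok⟩ := hM'
      obtain ⟨N, hNn, hNM⟩ := surj F hF g (fun L _ => hg L) hH hMn
        (hv2 (fun b => ok M' b) hMok)
      refine ⟨N, mem_filter.2 ⟨mem_nsg.2 hNn, ?_⟩, hNM⟩
      rw [hle N L₀ hNn hL₀, hNM]
      exact hML
    · intro N hN
      rw [mem_filter, mem_nsg] at hN
      obtain ⟨hNn, hNL⟩ := hN
      have e1 : Nat.card N = Nat.card (N.subgroupOf H) * ∏ j, wgt (N.subgroupOf H) (v j) := by
        rw [card_subgroupOf, card_formula F hF hNn, ← hH, hv3 (fun b => wgt (N.subgroupOf H) b)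
          (by unfold wgt; simp), Finset.prod_filter]
        congr 1
        refine Finset.prod_congr rfl fun L hL => ?_
        have h1 := hle L N (hF L hL).spl.normal_left hNn
        unfold wgt datL
        by_cases h2 : L ≤ N
        · rw [if_pos h2, if_pos (h1.1 h2)]
        · rw [if_neg h2, if_neg (fun h3 => h2 (h1.2 h3))]
      rw [e1]
      congr 1
      refine Finset.prod_congr rfl fun p hp => ?_
      have h1 := hle N (K p) hNn (hK p hp)
      by_cases h2 : N ≤ K p
      · rw [if_pos h2, if_pos (h1.1 h2)]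
      · rw [if_neg h2, if_neg (fun h3 => h2 (h1.2 h3))]

end Pool.Agent.Helper72.LGA
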